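import Mathlib

/-!
# An alternating form is bounded by minors
-/

namespace Pool.Agent.Toral

theorem alternating_expand {m k : ℕ} (ω : (Fin m → ℂ) [⋀^Fin k]→ₗ[ℂ] ℂ)
    (v : Fin k → Fin m → ℂ) :
    ω v = ∑ I : Fin k → Fin m, (∏ i, v i (I i)) * ω (fun i => Pi.single (I i) 1) := by
  have h1 : v = fun i => ∑ r : Fin m, v i r • (Pi.single r 1 : Fin m → ℂ) := by
    funext i
    exact pi_eq_sum_univ' (v i)
  have h2 : ω v = ω.toMultilinearMap v := rfl
  rw [h2]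
  conv_lhs => rw [h1]
  rw [MultilinearMap.map_sum]
  refine Finset.sum_congr rfl fun I _ => ?_
  rw [MultilinearMap.map_smul_univ, smul_eq_mul]
  rfl

theorem alternating_factorial {m k : ℕ} (ω : (Fin m → ℂ) [⋀^Fin k]→ₗ[ℂ] ℂ)
    (v : Fin k → Fin m → ℂ) :
    (k.factorial : ℂ) * ω v = ∑ I : Fin k → Fin m,
      (Matrix.of fun a b => v a (I b)).det * ω (fun i => Pi.single (I i) 1) := by
  have h1 : ∀ σ : Equiv.Perm (Fin k), ω v = (Equiv.Perm.sign σ : ℤ) • ω (v ∘ σ) := by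
    intro σ
    rw [AlternatingMap.map_perm]
    rcases Int.units_eq_one_or (Equiv.Perm.sign σ) with h | h <;> simp [h]
  calc (k.factorial : ℂ) * ω v = ∑ _σ : Equiv.Perm (Fin k), ω v := by
        rw [Finset.sum_const, Finset.card_univ, Fintype.card_perm, Fintype.card_fin,
          nsmul_eq_mul]
    _ = ∑ σ : Equiv.Perm (Fin k), (Equiv.Perm.sign σ : ℤ) • ω (v ∘ σ) :=
        Finset.sum_congr rfl fun σ _ => h1 σ
    _ = ∑ σ : Equiv.Perm (Fin k), ∑ I : Fin k → Fin m, ((Equiv.Perm.sign σ : ℤ) : ℂ) *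
          ((∏ i, v (σ i) (I i)) * ω (fun i => Pi.single (I i) 1)) := by
        refine Finset.sum_congr rfl fun σ _ => ?_
        rw [alternating_expand ω (v ∘ σ), zsmul_eq_mul, Finset.mul_sum]
        rfl
    _ = ∑ I : Fin k → Fin m, ∑ σ : Equiv.Perm (Fin k), ((Equiv.Perm.sign σ : ℤ) : ℂ) *
          ((∏ i, v (σ i) (I i)) * ω (fun i => Pi.single (I i) 1)) := Finset.sum_comm
    _ = _ := by
        refine Finset.sum_congr rfl fun I _ => ?_
        rw [Matrix.det_apply', Finset.sum_mul]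
        refine Finset.sum_congr rfl fun σ _ => ?_
        rw [← mul_assoc]
        rfl

theorem alternating_bound {m k : ℕ} (ω : (Fin m → ℂ) [⋀^Fin k]→ₗ[ℂ] ℂ) :
    ∃ C : ℝ, 0 ≤ C ∧ ∀ (v : Fin k → Fin m → ℂ) (D : ℝ),
      (∀ I : Fin k → Fin m, ‖(Matrix.of fun a b => v a (I b)).det‖ ≤ D) → ‖ω v‖ ≤ C * D := by
  refine ⟨∑ I : Fin k → Fin m, ‖ω (fun i => Pi.single (I i) 1)‖,
    Finset.sum_nonneg fun _ _ => norm_nonneg _, fun v D hD => ?_⟩
  have h1 : ‖ω v‖ ≤ ‖(k.factorial : ℂ) * ω v‖ := by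
    rw [norm_mul, Complex.norm_natCast]
    have : (1 : ℝ) ≤ k.factorial := by exact_mod_cast k.factorial_pos
    nlinarith [norm_nonneg (ω v)]
  refine h1.trans ?_
  rw [alternating_factorial, Finset.sum_mul]
  refine (norm_sum_le _ _).trans (Finset.sum_le_sum fun I _ => ?_)
  rw [norm_mul, mul_comm]
  exact mul_le_mul_of_nonneg_left (hD I) (norm_nonneg _)

end Pool.Agent.Toral
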