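import Mathlib

/-!
# An identity for alternating maps
-/

namespace Pool.Agent.Toral

open Equiv

theorem alternating_sub {k : ℕ} {M N : Type*} [AddCommGroup M] [Module ℂ M] [AddCommGroup N]
    [Module ℂ N] (f : M [⋀^Fin k]→ₗ[ℂ] N) (u : Fin (k + 1) → M) :
    f (fun j => u j.succ - u 0) =
      ∑ i : Fin (k + 1), (-1 : ℤ) ^ (i : ℕ) • f (fun j => u (i.succAbove j)) := by
  classical
  let m : Fin k → M := fun j => u j.succ
  let m' : Fin k → M := fun _ => -u 0
  have h1 : f (fun j => u j.succ - u 0) = ∑ s : Finset (Fin k), f (s.piecewise m m') := by
    have : (fun j => u j.succ - u 0) = m + m' := by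
      funext j
      simp [m, m', sub_eq_add_neg]
    rw [this]
    exact f.toMultilinearMap.map_add_univ m m'
  let e : Option (Fin k) → Finset (Fin k) := fun o =>
    o.elim Finset.univ fun j => Finset.univ.erase j
  have he : Function.Injective e := by
    intro a b hab
    cases a with
    | none =>
      cases b with
      | none => rfl
      | some j =>
        exfalso
        have : j ∈ e none := Finset.mem_univ j
        rw [hab] at this
        exact Finset.notMem_erase j _ this
    | some j =>
      cases b with
      | none =>
        exfalso
        have : j ∈ e none := Finset.mem_univ j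
        rw [← hab] at this
        exact Finset.notMem_erase j _ this
      | some j' =>
        congr 1
        by_contra hne
        have : j ∈ e (some j') := Finset.mem_erase.2 ⟨hne, Finset.mem_univ j⟩
        rw [← hab] at this
        exact Finset.notMem_erase j _ this
  have h2 : ∑ s : Finset (Fin k), f (s.piecewise m m') =
      ∑ o : Option (Fin k), f ((e o).piecewise m m') := by
    symm
    refine Fintype.sum_of_injective e he _ _ ?_ fun _ => rfl
    intro s hs
    -- two different indices outside `s`
    have h3 : ∃ a b, a ∉ s ∧ b ∉ s ∧ a ≠ b := by
      by_contra hcon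
      push Not at hcon
      apply hs
      by_cases h4 : ∃ a, a ∉ s
      · obtain ⟨a, ha⟩ := h4
        refine ⟨some a, ?_⟩
        ext b
        simp only [e, Option.elim, Finset.mem_erase, Finset.mem_univ, and_true]
        constructor
        · intro hba
          by_contra hb
          exact hba (hcon b a hb ha)
        · intro hb hba
          exact ha (hba ▸ hb)
      · push Not at h4
        refine ⟨none, ?_⟩
        ext b
        simp [e, h4 b]
    obtain ⟨a, b, ha, hb, hab⟩ := h3
    refine f.map_eq_zero_of_eq _ ?_ hab
    rw [Finset.piecewise_eq_of_notMem _ _ _ ha, Finset.piecewise_eq_of_notMem _ _ _ hb]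
  rw [h1, h2, Fintype.sum_option, Fin.sum_univ_succ]
  congr 1
  · have h8 : (e none).piecewise m m' = m := by
      funext a
      exact Finset.piecewise_eq_of_mem _ _ _ (Finset.mem_univ a)
    rw [h8]
    simp only [Fin.val_zero, pow_zero, one_smul, Fin.succAbove_zero]
    rfl
  · refine Finset.sum_congr rfl fun j _ => ?_
    have h5 : ((e (some j)).piecewise m m') = Function.update m j (-u 0) := by
      funext a
      by_cases h : a = j
      · subst h
        rw [Function.update_self, Finset.piecewise_eq_of_notMem]
        exact Finset.notMem_erase a _
      · rw [Function.update_of_ne h, Finset.piecewise_eq_of_mem]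
        exact Finset.mem_erase.2 ⟨h, Finset.mem_univ a⟩
    have h6 : Function.update m j (u 0) =
        (fun a => u (j.succ.succAbove a)) ∘ (Fin.cycleRange j) := by
      funext a
      simp only [Function.comp_apply, Fin.succAbove_cycleRange]
      by_cases h : a = j
      · subst h
        rw [Function.update_self, swap_apply_right]
      · rw [Function.update_of_ne h, swap_apply_of_ne_of_ne (Fin.succ_ne_zero a)
          (fun h' => h (Fin.succ_injective _ h'))]
    have h7 : f (Function.update m j (-u 0)) = -f (Function.update m j (u 0)) := by
      have := f.toMultilinearMap.map_update_smul m j (-1 : ℂ) (u 0)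
      simp only [neg_smul, one_smul] at this
      exact this
    rw [h5, h7, h6, AlternatingMap.map_perm, Fin.sign_cycleRange, Fin.val_succ, pow_succ]
    simp only [mul_neg, mul_one, neg_smul]
    rw [Units.smul_def]
    push_cast
    rfl

end Pool.Agent.Toral
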