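import Pool.Agent.Toral.Torus
import Pool.Agent.Toral.Ident

/-!
# The exterior product of the edges of a singular simplex of the torus
-/

namespace Pool.Agent.Toral

open Set

/-- The standard simplex. -/
abbrev Spx (k : ℕ) : Type := stdSimplex ℝ (Fin (k + 1))

/-- `φ` is a lift of the singular simplex `σ` of the torus, up to a constant. -/
def IsLift {k m : ℕ} (σ : C(Spx k, Torus m)) (φ : C(Spx k, Fin m → ℝ)) : Prop :=
  ∃ a : Torus m, ∀ x i, σ x i = a i + ((φ x i : ℝ) : AddCircle (1 : ℝ))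

instance (k : ℕ) : ContractibleSpace (Spx k) :=
  (convex_stdSimplex ℝ (Fin (k + 1))).contractibleSpace
    ⟨_, (stdSimplex.vertex (S := ℝ) (0 : Fin (k + 1))).2⟩

theorem exists_isLift {k m : ℕ} (σ : C(Spx k, Torus m)) : ∃ φ, IsLift σ φ := by
  obtain ⟨y, hy⟩ := id_nullhomotopic (Spx k)
  have h1 : (ContinuousMap.const (Spx k) (σ y)).Homotopic σ := by
    have h2 := (ContinuousMap.Homotopic.refl σ).comp hy.symm
    exact h2
  obtain ⟨φ, hφ⟩ := exists_lift h1
  exact ⟨φ, σ y, hφ⟩

theorem IsLift.unique {k m : ℕ} {σ : C(Spx k, Torus m)} {φ φ' : C(Spx k, Fin m → ℝ)}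
    (h : IsLift σ φ) (h' : IsLift σ φ') (x y : Spx k) : φ x - φ y = φ' x - φ' y := by
  obtain ⟨a, ha⟩ := h
  obtain ⟨a', ha'⟩ := h'
  funext i
  have key : ∀ x y : Spx k, ∃ c : ℤ, (φ x i - φ' x i) - (φ y i - φ' y i) = c := by
    intro x y
    have h1 : ((((φ x i - φ' x i) - (φ y i - φ' y i) : ℝ)) : AddCircle (1 : ℝ)) = 0 := by
      rw [AddCircle.coe_sub, AddCircle.coe_sub, AddCircle.coe_sub]
      have h2 : ((φ x i : ℝ) : AddCircle (1 : ℝ)) = σ x i - a i := by
        rw [ha]; abel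
      have h3 : ((φ' x i : ℝ) : AddCircle (1 : ℝ)) = σ x i - a' i := by
        rw [ha']; abel
      have h4 : ((φ y i : ℝ) : AddCircle (1 : ℝ)) = σ y i - a i := by
        rw [ha]; abel
      have h5 : ((φ' y i : ℝ) : AddCircle (1 : ℝ)) = σ y i - a' i := by
        rw [ha']; abel
      rw [h2, h3, h4, h5]
      abel
    rw [AddCircle.coe_eq_zero_iff] at h1
    obtain ⟨n, hn⟩ := h1
    exact ⟨n, by rw [← hn]; simp⟩
  choose c hc using fun x => key x y
  have hcc : Continuous fun x => (c x : ℝ) := by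
    have : (fun x => (c x : ℝ)) = fun x => (φ x i - φ' x i) - (φ y i - φ' y i) := by
      funext x
      exact (hc x).symm
    rw [this]
    fun_prop
  have hcc' : Continuous c :=
    (Int.isClosedEmbedding_coe_real.isInducing.continuous_iff (f := c)).2 hcc
  have h6 : c x = c y :=
    (isPreconnected_univ (α := Spx k)).constant hcc'.continuousOn (mem_univ x) (mem_univ y)
  have h7 := hc y
  rw [sub_self] at h7
  have h8 := hc x
  rw [h6, ← h7] at h8
  simp only [Pi.sub_apply]
  linarith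

/-- The edge from vertex `0` to vertex `i` of a lift of a singular simplex of the torus. -/
noncomputable def edge {k m : ℕ} (σ : C(Spx k, Torus m)) (i : Fin (k + 1)) : Fin m → ℝ :=
  (exists_isLift σ).choose (stdSimplex.vertex i) - (exists_isLift σ).choose (stdSimplex.vertex 0)

theorem IsLift.edge_eq {k m : ℕ} {σ : C(Spx k, Torus m)} {φ : C(Spx k, Fin m → ℝ)}
    (h : IsLift σ φ) (i : Fin (k + 1)) :
    edge σ i = φ (stdSimplex.vertex i) - φ (stdSimplex.vertex 0) :=
  (exists_isLift σ).choose_spec.unique h _ _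

/-- The exterior product of the edges. -/
noncomputable def kvec {k m : ℕ} (σ : C(Spx k, Torus m)) : ⋀[ℂ]^k (Fin m → ℂ) :=
  exteriorPower.ιMulti ℂ k (fun j i => ((edge σ j.succ i : ℝ) : ℂ))

/-- The face map of the standard simplex. -/
noncomputable def face {k : ℕ} (i : Fin (k + 2)) : C(Spx k, Spx (k + 1)) :=
  ⟨stdSimplex.map i.succAbove, by continuity⟩

theorem kvec_cocycle {k m : ℕ} (σ : C(Spx (k + 1), Torus m)) :
    ∑ i : Fin (k + 2), (-1 : ℤ) ^ (i : ℕ) • kvec (σ.comp (face i)) = 0 := by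
  obtain ⟨φ, hφ⟩ := exists_isLift σ
  have hface : ∀ i : Fin (k + 2), IsLift (σ.comp (face i)) (φ.comp (face i)) := by
    intro i
    obtain ⟨a, ha⟩ := hφ
    exact ⟨a, fun x j => ha (face i x) j⟩
  have hvert : ∀ (i : Fin (k + 2)) (j : Fin (k + 1)),
      face i (stdSimplex.vertex j) = stdSimplex.vertex (i.succAbove j) := by
    intro i j
    exact stdSimplex.map_vertex _ _
  let u : Fin (k + 1) → Fin m → ℂ := fun j i =>
    ((φ (stdSimplex.vertex j.succ) i - φ (stdSimplex.vertex 0) i : ℝ) : ℂ)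
  have h0 : kvec (σ.comp (face 0)) =
      exteriorPower.ιMulti ℂ k (fun j => u j.succ - u 0) := by
    rw [kvec]
    congr 1
    funext j i
    rw [(hface 0).edge_eq]
    simp only [ContinuousMap.comp_apply, hvert, Fin.succAbove_zero, Pi.sub_apply, u,
      Fin.succ_zero_eq_one]
    push_cast
    ring
  have hs : ∀ a : Fin (k + 1), kvec (σ.comp (face a.succ)) =
      exteriorPower.ιMulti ℂ k (fun j => u (a.succAbove j)) := by
    intro a
    rw [kvec]
    congr 1
    funext j i
    rw [(hface a.succ).edge_eq]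
    simp only [ContinuousMap.comp_apply, hvert, Fin.succ_succAbove_succ,
      Fin.succ_succAbove_zero, Pi.sub_apply, u]
  rw [Fin.sum_univ_succ, h0, alternating_sub]
  simp only [hs, Fin.val_zero, pow_zero, one_smul, Fin.val_succ, pow_succ]
  rw [← Finset.sum_add_distrib]
  refine Finset.sum_eq_zero fun a _ => ?_
  rw [mul_neg_one, neg_smul, add_neg_cancel]

/-- The linear map of an integer matrix. -/
noncomputable def linC {m k : ℕ} (B : Matrix (Fin m) (Fin k) ℤ) :
    (Fin k → ℂ) →ₗ[ℂ] (Fin m → ℂ) := (B.map (Int.cast : ℤ → ℂ)).toLin'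

theorem kvec_torusMap {k m n : ℕ} (B : Matrix (Fin m) (Fin n) ℤ) (σ : C(Spx k, Torus n)) :
    kvec ((torusMap B).comp σ) = exteriorPower.map k (linC B) (kvec σ) := by
  obtain ⟨φ, hφ⟩ := exists_isLift σ
  let φ' : C(Spx k, Fin m → ℝ) := ⟨fun x => (B.map (Int.cast : ℤ → ℝ)).mulVec (φ x),
    Continuous.matrix_mulVec continuous_const φ.continuous⟩
  have h1 : IsLift ((torusMap B).comp σ) φ' := by
    obtain ⟨a, ha⟩ := hφ
    refine ⟨torusMap B a, fun x i => ?_⟩
    simp only [ContinuousMap.comp_apply, torusMap, ContinuousMap.coe_mk, φ', Matrix.mulVec,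
      dotProduct, Matrix.map_apply]
    have : ((∑ j, (B i j : ℝ) * φ x j : ℝ) : AddCircle (1 : ℝ)) =
        ∑ j, (((B i j : ℝ) * φ x j : ℝ) : AddCircle (1 : ℝ)) :=
      map_sum (QuotientAddGroup.mk' (AddSubgroup.zmultiples (1 : ℝ))) _ _
    rw [this, ← Finset.sum_add_distrib]
    refine Finset.sum_congr rfl fun j _ => ?_
    rw [ha, smul_add, ← AddCircle.coe_zsmul, zsmul_eq_mul]
  rw [kvec, kvec, exteriorPower.map_apply_ιMulti]
  congr 1
  funext j i
  rw [h1.edge_eq]
  simp only [Function.comp_apply, linC, Matrix.toLin'_apply, Matrix.mulVec, dotProduct,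
    Matrix.map_apply, φ', ContinuousMap.coe_mk, Pi.sub_apply]
  rw [← Finset.sum_sub_distrib]
  push_cast
  refine Finset.sum_congr rfl fun a _ => ?_
  rw [hφ.edge_eq]
  simp only [Pi.sub_apply]
  push_cast
  ring

end Pool.Agent.Toral
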