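import Mathlib

/-!
# Essential maps to tori and toral classes

Definitions for the theorem on topological entropy and toral homology classes.
-/

namespace Pool.Agent.Toral

/-- The torus `(R/Z)^m`. -/
abbrev Torus (m : ℕ) : Type := Fin m → AddCircle (1 : ℝ)

/-- The homomorphism of tori `(R/Z)^k -> (R/Z)^m` given by an integer matrix. -/
def torusMap {m k : ℕ} (B : Matrix (Fin m) (Fin k) ℤ) : C(Torus k, Torus m) where
  toFun v := fun i => ∑ j, B i j • v j
  continuous_toFun := continuous_pi fun i =>
    continuous_finsetSum _ fun j _ => (continuous_apply j).zsmul (B i j)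

/-- A map to a torus is essential if every map homotopic to it is onto. -/
def Essential {Y : Type} [TopologicalSpace Y] {k : ℕ} (ρ : C(Y, Torus k)) : Prop :=
  ∀ g : C(Y, Torus k), ρ.Homotopic g → Function.Surjective g

/-- `w` is a toral class of `X` relative to `J : X -> (R/Z)^m`: there are a compact space `Y`,
a map `τ : Y -> X`, an essential map `ρ : Y -> (R/Z)^k` and an integer matrix `B` such that
`J ∘ τ` is homotopic to `B ∘ ρ`, and `w` is the exterior product of the columns of `B`. -/
def IsToral {X : Type} [TopologicalSpace X] {m k : ℕ} (J : C(X, Torus m))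
    (w : ⋀[ℂ]^k (Fin m → ℂ)) : Prop :=
  ∃ (Y : Type) (_ : TopologicalSpace Y) (_ : CompactSpace Y) (τ : C(Y, X))
    (ρ : C(Y, Torus k)) (B : Matrix (Fin m) (Fin k) ℤ),
    Essential ρ ∧ (J.comp τ).Homotopic ((torusMap B).comp ρ) ∧
      w = exteriorPower.ιMulti ℂ k (fun j i => ((B i j : ℤ) : ℂ))

end Pool.Agent.Toral
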