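import Pool.Agent.Toral.Coch

/-!
# The period map of the torus on singular homology
-/

namespace Pool.Agent.Toral

open CategoryTheory Limits Simplicial Opposite

/-- The `k`-th complex singular homology of `X` (as in the frozen statement). -/
noncomputable abbrev H (k : ℕ) (X : Type) [TopologicalSpace X] : ModuleCat.{0} ℂ :=
  ((AlgebraicTopology.singularHomologyFunctor (ModuleCat.{0} ℂ) k).obj
    (ModuleCat.of ℂ ℂ)).obj (TopCat.of X)

/-- The map induced on the `k`-th complex singular homology. -/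
noncomputable def Hmap (k : ℕ) {X Y : Type} [TopologicalSpace X] [TopologicalSpace Y]
    (f : C(X, Y)) : H k X →ₗ[ℂ] H k Y :=
  (((AlgebraicTopology.singularHomologyFunctor (ModuleCat.{0} ℂ) k).obj
    (ModuleCat.of ℂ ℂ)).map (TopCat.ofHom f)).hom

theorem Hmap_comp (k : ℕ) {X Y Z : Type} [TopologicalSpace X] [TopologicalSpace Y]
    [TopologicalSpace Z] (f : C(X, Y)) (g : C(Y, Z)) (c : H k X) :
    Hmap k (g.comp f) c = Hmap k g (Hmap k f c) := by
  have : TopCat.ofHom (g.comp f) = TopCat.ofHom f ≫ TopCat.ofHom g := rfl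
  rw [Hmap, this, Functor.map_comp]
  rfl

theorem Hmap_congr (k : ℕ) {X Y : Type} [TopologicalSpace X] [TopologicalSpace Y]
    {f g : C(X, Y)} (h : f.Homotopic g) : Hmap k f = Hmap k g := by
  obtain ⟨F⟩ := h
  have := TopCat.Homotopy.congr_homologyMap_singularChainComplexFunctor
    (C := ModuleCat.{0} ℂ) (f := TopCat.ofHom f) (g := TopCat.ofHom g) F (ModuleCat.of ℂ ℂ) k
  exact congr_arg ModuleCat.Hom.hom this

/-- The singular chain complex of `X`. -/
noncomputable abbrev Ch (X : Type) [TopologicalSpace X] : ChainComplex (ModuleCat.{0} ℂ) ℕ :=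
  (TopCat.toSSet.obj (TopCat.of X)).chainComplex (ModuleCat.of ℂ ℂ)

/-- The `Λ^k C^m` valued cochain: the exterior product of the edges of a lifted simplex. -/
noncomputable def theta (k m : ℕ) :
    (Ch (Torus m)).X k ⟶ ModuleCat.of ℂ (⋀[ℂ]^k (Fin m → ℂ)) :=
  Cofan.IsColimit.desc
    ((TopCat.toSSet.obj (TopCat.of (Torus m))).isColimitChainComplexXCofan (ModuleCat.of ℂ ℂ) k)
    (fun σ => ModuleCat.ofHom (LinearMap.toSpanSingleton ℂ _
      (kvec (TopCat.toSSetObjEquiv (TopCat.of (Torus m)) (op ⦋k⦌) σ))))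

theorem ι_theta (k m : ℕ) (σ : TopCat.toSSet.obj (TopCat.of (Torus m)) _⦋k⦌) :
    SSet.ιChainComplex (R := ModuleCat.of ℂ ℂ) _ σ ≫ theta k m =
      ModuleCat.ofHom (LinearMap.toSpanSingleton ℂ _
        (kvec (TopCat.toSSetObjEquiv (TopCat.of (Torus m)) (op ⦋k⦌) σ))) :=
  Cofan.IsColimit.fac _ _ σ

theorem d_theta (k m : ℕ) : (Ch (Torus m)).d (k + 1) k ≫ theta k m = 0 := by
  refine SSet.chainComplex_hom_ext fun σ => ?_
  rw [SSet.ιChainComplex_d_assoc, comp_zero]
  rw [Preadditive.sum_comp]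
  have h1 : ∀ i : Fin (k + 2),
      ((-1 : ℤ) ^ (i : ℕ) • SSet.ιChainComplex (R := ModuleCat.of ℂ ℂ) _
        ((TopCat.toSSet.obj (TopCat.of (Torus m))).δ i σ)) ≫ theta k m =
      ModuleCat.ofHom (LinearMap.toSpanSingleton ℂ _ ((-1 : ℤ) ^ (i : ℕ) •
        kvec ((TopCat.toSSetObjEquiv (TopCat.of (Torus m)) (op ⦋k + 1⦌) σ).comp
          (face i)))) := by
    intro i
    rw [Preadditive.zsmul_comp, ι_theta]
    ext
    simp only [ModuleCat.hom_zsmul, ModuleCat.hom_ofHom, LinearMap.smul_apply,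
      LinearMap.toSpanSingleton_apply, one_smul]
    rfl
  simp only [h1]
  have h2 := kvec_cocycle (TopCat.toSSetObjEquiv (TopCat.of (Torus m)) (op ⦋k + 1⦌) σ)
  ext
  simp only [ModuleCat.hom_sum, ModuleCat.hom_ofHom, LinearMap.sum_apply,
    LinearMap.toSpanSingleton_apply, one_smul, ModuleCat.hom_zero, LinearMap.zero_apply]
  exact congrArg Subtype.val h2

/-- The period map `H_k((R/Z)^m; C) -> Λ^k C^m`. -/
noncomputable def period (k m : ℕ) : H k (Torus m) →ₗ[ℂ] ⋀[ℂ]^k (Fin m → ℂ) :=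
  ((Ch (Torus m)).homologyι k ≫
    (Ch (Torus m)).descOpcycles (theta k m) (k + 1) (by simp) (d_theta k m)).hom

theorem period_Hmap_torusMap (k m n : ℕ) (B : Matrix (Fin m) (Fin n) ℤ) (c : H k (Torus n)) :
    period k m (Hmap k (torusMap B) c) = exteriorPower.map k (linC B) (period k n c) := by
  have h1 : (SSet.chainComplexMap (TopCat.toSSet.map (TopCat.ofHom (torusMap B)))
      (ModuleCat.of ℂ ℂ)).f k ≫ theta k m =
      theta k n ≫ ModuleCat.ofHom (exteriorPower.map k (linC B)) := by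
    refine SSet.chainComplex_hom_ext fun σ => ?_
    rw [SSet.ι_chainComplexMap_f_assoc, ι_theta, ← Category.assoc, ι_theta]
    have h2 := kvec_torusMap B (TopCat.toSSetObjEquiv (TopCat.of (Torus n)) (op ⦋k⦌) σ)
    refine ModuleCat.hom_ext (LinearMap.ext fun x => ?_)
    simp only [ModuleCat.hom_comp, ModuleCat.hom_ofHom, LinearMap.comp_apply,
      LinearMap.toSpanSingleton_apply, map_smul]
    rw [← h2]
    rfl
  have h3 : HomologicalComplex.homologyMap (SSet.chainComplexMap
      (TopCat.toSSet.map (TopCat.ofHom (torusMap B))) (ModuleCat.of ℂ ℂ)) k ≫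
      ((Ch (Torus m)).homologyι k ≫
        (Ch (Torus m)).descOpcycles (theta k m) (k + 1) (by simp) (d_theta k m)) =
      ((Ch (Torus n)).homologyι k ≫
        (Ch (Torus n)).descOpcycles (theta k n) (k + 1) (by simp) (d_theta k n)) ≫
      ModuleCat.ofHom (exteriorPower.map k (linC B)) := by
    rw [HomologicalComplex.homologyι_naturality_assoc,
      HomologicalComplex.opcyclesMap_comp_descOpcycles, Category.assoc,
      HomologicalComplex.descOpcycles_comp]
    congr 1
    simp only [h1]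
  exact congr_arg (fun q => q.hom c) h3

end Pool.Agent.Toral
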