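import Pool.Agent.Toral.Main
import Pool.Agent.Toral.Hom

/-!
# Entropy and toral homology classes
-/

namespace Pool.Agent.Toral

open Set Dynamics

/-- `c` is a toral homology class of `X` relative to `J : X -> (R/Z)^m`: the image of a class
of a compact space `Y` under a map `τ : Y -> X` such that `J ∘ τ` is homotopic to `B ∘ ρ` for an
integer matrix `B` and an essential map `ρ : Y -> (R/Z)^k`. -/
def IsToralClass {X : Type} [TopologicalSpace X] {m : ℕ} (k : ℕ) (J : C(X, Torus m))
    (c : H k X) : Prop :=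
  ∃ (Y : Type) (_ : TopologicalSpace Y) (_ : CompactSpace Y) (τ : C(Y, X))
    (ρ : C(Y, Torus k)) (B : Matrix (Fin m) (Fin k) ℤ) (η : H k Y),
    Essential ρ ∧ (J.comp τ).Homotopic ((torusMap B).comp ρ) ∧ c = Hmap k τ η

/-- The complex span of the toral homology classes. -/
noncomputable def toralSpan {X : Type} [TopologicalSpace X] {m : ℕ} (k : ℕ)
    (J : C(X, Torus m)) : Submodule ℂ (H k X) :=
  Submodule.span ℂ {c | IsToralClass k J c}

/-- Every image of a class of the torus `(R/Z)^k` is toral. -/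
theorem isToralClass_torus {X : Type} [TopologicalSpace X] {m : ℕ} (k : ℕ) (J : C(X, Torus m))
    (τ : C(Torus k, X)) (η : H k (Torus k)) : IsToralClass k J (Hmap k τ η) := by
  obtain ⟨B, hB⟩ := homotopic_torusMap (J.comp τ)
  exact ⟨Torus k, inferInstance, inferInstance, τ, ContinuousMap.id _, B, η, essential_id k,
    hB, rfl⟩

theorem alternating_expand' {k : ℕ} {N : Type*} [AddCommGroup N] [Module ℂ N]
    (g : (Fin k → ℂ) [⋀^Fin k]→ₗ[ℂ] N) (v : Fin k → Fin k → ℂ) :
    g v ∈ Submodule.span ℂ {g (fun i => Pi.single i 1)} := by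
  have h1 : v = fun i => ∑ r : Fin k, v i r • (Pi.single r 1 : Fin k → ℂ) := by
    funext i
    exact pi_eq_sum_univ' (v i)
  have h2 : g v = ∑ I : Fin k → Fin k,
      g.toMultilinearMap (fun i => v i (I i) • (Pi.single (I i) 1 : Fin k → ℂ)) := by
    have h3 : g v = g.toMultilinearMap v := rfl
    rw [h3]
    conv_lhs => rw [h1]
    rw [MultilinearMap.map_sum]
  rw [h2]
  refine Submodule.sum_mem _ fun I _ => ?_
  rw [MultilinearMap.map_smul_univ]
  refine Submodule.smul_mem _ _ ?_
  by_cases hI : Function.Injective I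
  · let σ : Equiv.Perm (Fin k) := Equiv.ofBijective I (Finite.injective_iff_bijective.1 hI)
    have h3 : (g.toMultilinearMap fun i => (Pi.single (I i) 1 : Fin k → ℂ)) =
        g ((fun i => (Pi.single i 1 : Fin k → ℂ)) ∘ σ) := rfl
    rw [h3, AlternatingMap.map_perm]
    rcases Int.units_eq_one_or (Equiv.Perm.sign σ) with h | h
    · rw [h, one_smul]
      exact Submodule.mem_span_singleton_self _
    · rw [h, Units.neg_smul, one_smul]
      exact Submodule.neg_mem _ (Submodule.mem_span_singleton_self _)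
  · have h3 : (g.toMultilinearMap fun i => (Pi.single (I i) 1 : Fin k → ℂ)) = 0 := by
      rw [Function.Injective] at hI
      push Not at hI
      obtain ⟨a, b, hab, hne⟩ := hI
      exact g.map_eq_zero_of_eq _ (by simp only [hab]) hne
    rw [h3]
    exact Submodule.zero_mem _

theorem map_mem_span {m k : ℕ} (B : Matrix (Fin m) (Fin k) ℤ) (ξ : ⋀[ℂ]^k (Fin k → ℂ)) :
    exteriorPower.map k (linC B) ξ ∈
      Submodule.span ℂ {exteriorPower.ιMulti ℂ k (fun j i => ((B i j : ℤ) : ℂ))} := by
  have h0 : ξ ∈ Submodule.span ℂ (Set.range (exteriorPower.ιMulti ℂ k (M := Fin k → ℂ))) := by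
    rw [exteriorPower.ιMulti_span]
    trivial
  induction h0 using Submodule.span_induction with
  | mem x hx =>
    obtain ⟨v, rfl⟩ := hx
    have h1 := alternating_expand' ((exteriorPower.ιMulti ℂ k (M := Fin m → ℂ)).compLinearMap
      (linC B)) v
    rw [exteriorPower.map_apply_ιMulti]
    have h2 : ((exteriorPower.ιMulti ℂ k (M := Fin m → ℂ)).compLinearMap (linC B))
        (fun i => Pi.single i 1) =
        exteriorPower.ιMulti ℂ k (fun j i => ((B i j : ℤ) : ℂ)) := by
      rw [AlternatingMap.compLinearMap_apply]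
      congr 1
      funext j i
      simp [linC]
    rw [h2] at h1
    exact h1
  | zero => simp
  | add x y _ _ hx hy =>
    rw [map_add]
    exact Submodule.add_mem _ hx hy
  | smul a x _ hx =>
    rw [map_smul]
    exact Submodule.smul_mem _ _ hx

theorem period_mem {X : Type} [TopologicalSpace X] {m k : ℕ} (J : C(X, Torus m)) (c : H k X)
    (hc : c ∈ toralSpan k J) :
    period k m (Hmap k J c) ∈ Submodule.span ℂ {w | IsToral (k := k) J w} := by
  unfold toralSpan at hc
  induction hc using Submodule.span_induction with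
  | mem c hc =>
    obtain ⟨Y, _, _, τ, ρ, B, η, hρ, hτ, rfl⟩ := hc
    rw [← Hmap_comp, Hmap_congr k hτ, Hmap_comp, period_Hmap_torusMap]
    refine Submodule.span_mono ?_ (map_mem_span B _)
    rw [Set.singleton_subset_iff]
    exact ⟨Y, inferInstance, inferInstance, τ, ρ, B, hρ, hτ, rfl⟩
  | zero => simp
  | add x y _ _ hx hy =>
    rw [map_add, map_add]
    exact Submodule.add_mem _ hx hy
  | smul a x _ hx =>
    rw [map_smul, map_smul]
    exact Submodule.smul_mem _ _ hx

theorem entropy_ge_log {X : Type} [UniformSpace X] [CompactSpace X] {m k : ℕ} (f : C(X, X))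
    (J : C(X, Torus m)) (A : Matrix (Fin m) (Fin m) ℤ)
    (hA : (J.comp f).Homotopic ((torusMap A).comp J)) (μ : ℂ) (c : H k X)
    (hc : c ∈ toralSpan k J)
    (hμ : period k m (Hmap k J (Hmap k f c)) = μ • period k m (Hmap k J c))
    (h0 : period k m (Hmap k J c) ≠ 0) :
    ((Real.log ‖μ‖ : ℝ) : EReal) ≤ coverEntropy f univ := by
  refine entropy_ge f J A hA μ _ (period_mem J c hc) h0 ?_
  rw [← period_Hmap_torusMap, ← Hmap_comp, ← Hmap_congr k hA, Hmap_comp, hμ]

end Pool.Agent.Toral
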