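import Pool.Agent.Toral.Final

/-!
# The fundamental class of the torus; the period map is onto
-/

namespace Pool.Agent.Toral

open CategoryTheory Limits Simplicial Opposite Equiv

/-- The tail sums of the barycentric coordinates. -/
noncomputable def tailSum {k : ℕ} (b : Fin k) (x : Spx k) : ℝ :=
  ∑ j : Fin (k + 1), if b.castSucc < j then (x : Fin (k + 1) → ℝ) j else 0

theorem continuous_tailSum {k : ℕ} (b : Fin k) : Continuous (tailSum b) := by
  unfold tailSum
  refine continuous_finsetSum _ fun j _ => ?_
  split_ifs
  · exact (continuous_apply j).comp continuous_subtype_val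
  · exact continuous_const

theorem tailSum_face {n : ℕ} (i : Fin (n + 2)) (b : Fin (n + 1)) (x : Spx n) :
    tailSum b (face i x) =
      ∑ l : Fin (n + 1), if b.castSucc < i.succAbove l then (x : Fin (n + 1) → ℝ) l else 0 := by
  classical
  unfold tailSum
  have h1 : ∀ j : Fin (n + 2), ((face i x : Spx (n + 1)) : Fin (n + 2) → ℝ) j =
      ∑ l : Fin (n + 1) with i.succAbove l = j, (x : Fin (n + 1) → ℝ) l := by
    intro j
    exact FunOnFinite.linearMap_apply_apply ℝ ℝ i.succAbove _ j
  simp only [h1]
  rw [← Finset.sum_fiberwise Finset.univ i.succAbove]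
  refine Finset.sum_congr rfl fun j _ => ?_
  split_ifs with h
  · refine Finset.sum_congr rfl fun l hl => ?_
    rw [Finset.mem_filter] at hl
    rw [hl.2, if_pos h]
  · symm
    refine Finset.sum_eq_zero fun l hl => ?_
    rw [Finset.mem_filter] at hl
    rw [hl.2, if_neg h]

/-- The simplices of the standard triangulation of the torus. -/
noncomputable def sig {k : ℕ} (s : Perm (Fin k)) : C(Spx k, Torus k) where
  toFun x := fun a => ((tailSum (s.symm a) x : ℝ) : AddCircle (1 : ℝ))
  continuous_toFun := continuous_pi fun _ => coe_cont.comp (continuous_tailSum _)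

theorem sig_face_swap {n : ℕ} (s : Perm (Fin (n + 1))) (i : Fin n) :
    (sig (s * swap i.castSucc i.succ)).comp (face i.succ.castSucc) =
      (sig s).comp (face i.succ.castSucc) := by
  have key : ∀ (b : Fin (n + 1)) (x : Spx n),
      tailSum (swap i.castSucc i.succ b) (face i.succ.castSucc x) =
        tailSum b (face i.succ.castSucc x) := by
    have h0 : ∀ x : Spx n, tailSum i.succ (face i.succ.castSucc x) =
        tailSum i.castSucc (face i.succ.castSucc x) := by
      intro x
      rw [tailSum_face, tailSum_face]
      refine Finset.sum_congr rfl fun l _ => ?_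
      have h1 : i.succ.castSucc.succAbove l ≠ i.succ.castSucc := Fin.succAbove_ne _ _
      have h2 : (i.succ.castSucc < i.succ.castSucc.succAbove l) ↔
          (i.castSucc.castSucc < i.succ.castSucc.succAbove l) := by
        have h3 : (i.succ.castSucc.succAbove l : ℕ) ≠ i + 1 := by
          intro h
          apply h1
          ext
          simpa using h
        simp only [Fin.lt_def, Fin.val_castSucc, Fin.val_succ]
        omega
      simp only [h2]
    intro b x
    by_cases hb : b = i.castSucc
    · rw [hb, swap_apply_left, h0]
    · by_cases hb' : b = i.succ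
      · rw [hb', swap_apply_right, h0]
      · rw [swap_apply_of_ne_of_ne hb hb']
  ext x a
  simp only [ContinuousMap.comp_apply, sig, ContinuousMap.coe_mk]
  have h1 : (s * swap i.castSucc i.succ).symm a = swap i.castSucc i.succ (s.symm a) := by
    rw [Equiv.symm_apply_eq, Perm.mul_apply, swap_apply_self, Equiv.apply_symm_apply]
  rw [h1, key]

theorem sig_face_last {n : ℕ} (s : Perm (Fin (n + 1))) :
    (sig (s * finRotate (n + 1))).comp (face (Fin.last (n + 1))) =
      (sig s).comp (face 0) := by
  have key : ∀ (b : Fin (n + 1)) (x : Spx n),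
      ((tailSum ((finRotate (n + 1)).symm b) (face (Fin.last (n + 1)) x) : ℝ) :
        AddCircle (1 : ℝ)) = ((tailSum b (face 0 x) : ℝ) : AddCircle (1 : ℝ)) := by
    intro b x
    refine Fin.cases ?_ (fun b => ?_) b
    · have h1 : (finRotate (n + 1)).symm 0 = Fin.last n := by
        rw [Equiv.symm_apply_eq, finRotate_last]
      rw [h1, tailSum_face, tailSum_face]
      have h2 : ∑ l : Fin (n + 1), (if (Fin.last n).castSucc <
          (Fin.last (n + 1)).succAbove l then (x : Fin (n + 1) → ℝ) l else 0) = 0 := by
        refine Finset.sum_eq_zero fun l _ => if_neg ?_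
        rw [Fin.succAbove_last, Fin.lt_def]
        simp only [Fin.val_castSucc, Fin.val_last]
        omega
      have h3 : ∑ l : Fin (n + 1), (if (0 : Fin (n + 1)).castSucc <
          (0 : Fin (n + 2)).succAbove l then (x : Fin (n + 1) → ℝ) l else 0) = 1 := by
        have h4 : ∀ l : Fin (n + 1), (0 : Fin (n + 1)).castSucc <
            (0 : Fin (n + 2)).succAbove l := by
          intro l
          rw [Fin.succAbove_zero, Fin.lt_def]
          simp
        simp only [h4, if_true]
        exact x.2.2
      rw [h2, h3]
      have h5 : ((1 : ℝ) : AddCircle (1 : ℝ)) = 0 := by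
        rw [AddCircle.coe_eq_zero_iff]
        exact ⟨1, by simp⟩
      rw [h5]
      rfl
    · have h1 : (finRotate (n + 1)).symm b.succ = b.castSucc := by
        rw [Equiv.symm_apply_eq, finRotate_apply]
        ext
        rw [Fin.val_succ, Fin.val_add_one_of_lt]
        · simp
        · exact Fin.castSucc_lt_last b
      rw [h1, tailSum_face, tailSum_face]
      congr 1
      refine Finset.sum_congr rfl fun l _ => ?_
      rw [Fin.succAbove_last, Fin.succAbove_zero]
      have h2 : (b.castSucc.castSucc < l.castSucc) ↔ (b.succ.castSucc < l.succ) := by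
        simp only [Fin.lt_def, Fin.val_castSucc, Fin.val_succ]
        omega
      simp only [h2]
  ext x a
  simp only [ContinuousMap.comp_apply, sig, ContinuousMap.coe_mk]
  have h1 : (s * finRotate (n + 1)).symm a = (finRotate (n + 1)).symm (s.symm a) := by
    rw [Equiv.symm_apply_eq, Perm.mul_apply, Equiv.apply_symm_apply, Equiv.apply_symm_apply]
  rw [h1, key]

end Pool.Agent.Toral
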