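import Pool.Agent.Toral.Fund

/-!
# The fundamental cycle of the torus
-/

namespace Pool.Agent.Toral

open CategoryTheory Limits Simplicial Opposite Equiv

/-- A continuous map of the standard simplex as a simplex of the singular set. -/
noncomputable def spx {k : ℕ} {X : Type} [TopologicalSpace X] (σ : C(Spx k, X)) :
    TopCat.toSSet.obj (TopCat.of X) _⦋k⦌ :=
  (TopCat.toSSetObjEquiv (TopCat.of X) (op ⦋k⦌)).symm σ

/-- A simplex as a generator of the chains. -/
noncomputable def gen {k : ℕ} {X : Type} [TopologicalSpace X] (σ : C(Spx k, X)) :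
    ModuleCat.of ℂ ℂ ⟶ (Ch X).X k :=
  SSet.ιChainComplex (R := ModuleCat.of ℂ ℂ) _ (spx σ)

theorem gen_d {k : ℕ} {X : Type} [TopologicalSpace X] (σ : C(Spx (k + 1), X)) :
    gen σ ≫ (Ch X).d (k + 1) k =
      ∑ i : Fin (k + 2), (-1 : ℤ) ^ (i : ℕ) • gen (σ.comp (face i)) := by
  rw [gen, SSet.ιChainComplex_d]
  rfl

theorem gen_theta {k m : ℕ} (σ : C(Spx k, Torus m)) :
    gen σ ≫ theta k m = ModuleCat.ofHom (LinearMap.toSpanSingleton ℂ _ (kvec σ)) := by
  rw [gen, ι_theta, spx, Equiv.apply_symm_apply]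

/-- The fundamental chain of the torus. -/
noncomputable def fund (k : ℕ) : ModuleCat.of ℂ ℂ ⟶ (Ch (Torus k)).X k :=
  ∑ s : Perm (Fin k), (Perm.sign s : ℤ) • gen (sig s)

theorem fund_d (n : ℕ) : fund (n + 1) ≫ (Ch (Torus (n + 1))).d (n + 1) n = 0 := by
  classical
  rw [fund, Preadditive.sum_comp]
  simp only [Preadditive.zsmul_comp, gen_d, Finset.smul_sum]
  rw [Finset.sum_comm, Fin.sum_univ_succ, Fin.sum_univ_castSucc]
  have hmid : ∀ i : Fin n, ∑ s : Perm (Fin (n + 1)), (Perm.sign s : ℤ) •
      ((-1 : ℤ) ^ ((i.castSucc.succ : Fin (n + 2)) : ℕ) •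
        gen ((sig s).comp (face i.castSucc.succ))) = 0 := by
    intro i
    have hi : (i.castSucc.succ : Fin (n + 2)) = i.succ.castSucc := rfl
    refine Finset.sum_involution (fun s _ => s * swap i.castSucc i.succ) ?_ ?_ ?_ ?_
    · intro s _
      rw [hi, sig_face_swap, Perm.sign_mul, Perm.sign_swap (Fin.castSucc_lt_succ).ne]
      push_cast
      rw [mul_neg_one, neg_smul, add_neg_cancel]
    · intro s _ _ h
      have h1 : swap i.castSucc i.succ = 1 := mul_eq_left.1 h
      rw [swap_eq_one_iff] at h1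
      exact (Fin.castSucc_lt_succ (i := i)).ne h1
    · intro s _
      exact Finset.mem_univ _
    · intro s _
      rw [mul_assoc, swap_mul_self, mul_one]
  simp only [hmid, Finset.sum_const_zero, zero_add]
  have hlast : (Fin.last n).succ = Fin.last (n + 1) := rfl
  rw [hlast]
  have h2 : ∑ s : Perm (Fin (n + 1)), (Perm.sign s : ℤ) •
      ((-1 : ℤ) ^ ((Fin.last (n + 1) : Fin (n + 2)) : ℕ) •
        gen ((sig s).comp (face (Fin.last (n + 1))))) =
      ∑ s : Perm (Fin (n + 1)), -((Perm.sign s : ℤ) • gen ((sig s).comp (face 0))) := by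
    rw [← Equiv.sum_comp (Equiv.mulRight (finRotate (n + 1)))]
    refine Finset.sum_congr rfl fun s _ => ?_
    rw [Equiv.coe_mulRight, sig_face_last, Perm.sign_mul, sign_finRotate, Fin.val_last,
      smul_smul, ← neg_smul]
    congr 1
    push_cast
    rw [mul_assoc, ← pow_add]
    have : n + (n + 1) = 2 * n + 1 := by ring
    rw [this, pow_succ, pow_mul]
    simp
  rw [h2, Finset.sum_neg_distrib]
  simp

theorem fund_d' (k : ℕ) :
    fund k ≫ (Ch (Torus k)).d k ((ComplexShape.down ℕ).next k) = 0 := by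
  cases k with
  | zero =>
    rw [(Ch (Torus 0)).shape, comp_zero]
    simp
  | succ n =>
    rw [ChainComplex.next_nat_succ]
    exact fund_d n

/-- The fundamental class of the torus. -/
noncomputable def fundClass (k : ℕ) : H k (Torus k) :=
  ((Ch (Torus k)).liftCycles (fund k) _ rfl (fund_d' k) ≫ (Ch (Torus k)).homologyπ k).hom
    (1 : ℂ)

theorem period_fundClass (k : ℕ) :
    period k k (fundClass k) = ∑ s : Perm (Fin k), (Perm.sign s : ℤ) • kvec (sig s) := by
  have h1 : ((Ch (Torus k)).liftCycles (fund k) _ rfl (fund_d' k) ≫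
      (Ch (Torus k)).homologyπ k) ≫ ((Ch (Torus k)).homologyι k ≫
      (Ch (Torus k)).descOpcycles (theta k k) (k + 1) (by simp) (d_theta k k)) =
      fund k ≫ theta k k := by
    rw [Category.assoc, HomologicalComplex.homology_π_ι_assoc,
      HomologicalComplex.p_descOpcycles, HomologicalComplex.liftCycles_i_assoc]
  have h2 : period k k (fundClass k) = (fund k ≫ theta k k).hom (1 : ℂ) := by
    rw [← h1]
    rfl
  rw [h2, fund, Preadditive.sum_comp]
  simp only [Preadditive.zsmul_comp, gen_theta, ModuleCat.hom_sum, ModuleCat.hom_zsmul,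
    ModuleCat.hom_ofHom]
  rw [LinearMap.sum_apply]
  refine Finset.sum_congr rfl fun s _ => ?_
  rw [LinearMap.smul_apply, LinearMap.toSpanSingleton_apply]
  exact congr_arg _ (one_smul ℂ _)

theorem tailSum_vertex {k : ℕ} (b : Fin k) (j : Fin (k + 1)) :
    tailSum b (stdSimplex.vertex j) = if b.castSucc < j then 1 else 0 := by
  classical
  unfold tailSum
  simp only [stdSimplex.vertex_coe]
  rw [Finset.sum_eq_single j]
  · simp
  · intro l _ hl
    rw [Pi.single_eq_of_ne hl]
    simp
  · intro h
    exact absurd (Finset.mem_univ j) h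

theorem edge_sig {k : ℕ} (s : Perm (Fin k)) (j a : Fin k) :
    edge (sig s) j.succ a = if s.symm a ≤ j then 1 else 0 := by
  have h1 : IsLift (sig s) ⟨fun x a => tailSum (s.symm a) x,
      continuous_pi fun a => continuous_tailSum _⟩ := by
    refine ⟨0, fun x i => ?_⟩
    simp [sig]
  rw [h1.edge_eq]
  simp only [ContinuousMap.coe_mk, Pi.sub_apply, tailSum_vertex]
  have h2 : ¬ ((s.symm a).castSucc < (0 : Fin (k + 1))) := by simp
  have h3 : ((s.symm a).castSucc < j.succ) ↔ s.symm a ≤ j := by
    simp only [Fin.lt_def, Fin.le_def, Fin.val_castSucc, Fin.val_succ]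
    omega
  simp only [h2, h3, if_false, sub_zero]

/-- The determinant as a linear form. -/
noncomputable def detForm (k : ℕ) : (⋀[ℂ]^k (Fin k → ℂ)) →ₗ[ℂ] ℂ :=
  exteriorPower.alternatingMapLinearEquiv Matrix.detRowAlternating

theorem detForm_kvec {k : ℕ} (s : Perm (Fin k)) :
    detForm k (kvec (sig s)) = ((Perm.sign s : ℤ) : ℂ) := by
  rw [detForm, kvec, exteriorPower.alternatingMapLinearEquiv_apply_ιMulti]
  let L : Matrix (Fin k) (Fin k) ℂ := fun j b => if b ≤ j then 1 else 0
  have h1 : (fun (j i : Fin k) => ((edge (sig s) j.succ i : ℝ) : ℂ)) =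
      L.submatrix id s.symm := by
    funext j i
    rw [edge_sig]
    change _ = if s.symm i ≤ j then (1 : ℂ) else 0
    split_ifs <;> simp
  have h2 : L.det = 1 := by
    rw [Matrix.det_of_isLowerTriangular]
    · simp [L]
    · intro i j hij
      have : ¬ (j ≤ i) := by
        intro h
        exact absurd hij (not_lt.2 h)
      simp [L, this]
  rw [h1]
  have h3 : (Matrix.detRowAlternating (R := ℂ) (n := Fin k)) (L.submatrix id s.symm) =
      (L.submatrix id s.symm).det := rfl
  rw [h3, Matrix.det_permute', h2, mul_one, Perm.sign_symm]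

theorem detForm_period (k : ℕ) : detForm k (period k k (fundClass k)) = k.factorial := by
  rw [period_fundClass, map_sum]
  have : ∀ s : Perm (Fin k), detForm k ((Perm.sign s : ℤ) • kvec (sig s)) = 1 := by
    intro s
    rw [map_zsmul, detForm_kvec, zsmul_eq_mul]
    rcases Int.units_eq_one_or (Perm.sign s) with h | h <;> simp [h]
  simp only [this, Finset.sum_const, Finset.card_univ, Fintype.card_perm, Fintype.card_fin,
    nsmul_eq_mul, mul_one]

end Pool.Agent.Toral
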