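import Pool.Agent.Toral.Defs

/-!
# Lifts of homotopies of maps to tori
-/

namespace Pool.Agent.Toral

open scoped unitInterval

theorem exists_lift {X : Type} [TopologicalSpace X] {m : ℕ} {g₀ g₁ : C(X, Torus m)}
    (h : g₀.Homotopic g₁) :
    ∃ φ : C(X, Fin m → ℝ), ∀ x i, g₁ x i = g₀ x i + ((φ x i : ℝ) : AddCircle (1 : ℝ)) := by
  obtain ⟨H⟩ := h
  have key : ∀ i : Fin m, ∃ φ : C(X, ℝ), ∀ x,
      g₁ x i = g₀ x i + ((φ x : ℝ) : AddCircle (1 : ℝ)) := by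
    intro i
    let D : C(I × X, AddCircle (1 : ℝ)) :=
      ⟨fun p => H p i - g₀ p.2 i, by fun_prop⟩
    have cov := AddCircle.isCoveringMap_coe (1 : ℝ)
    have h0 : ∀ a, D (0, a) = (((0 : C(X, ℝ)) a : ℝ) : AddCircle (1 : ℝ)) := by
      intro a
      simp [D]
    let L := cov.liftHomotopy D 0 h0
    refine ⟨⟨fun x => L (1, x), by fun_prop⟩, fun x => ?_⟩
    have h1 : ((L (1, x) : ℝ) : AddCircle (1 : ℝ)) = D (1, x) :=
      congr_fun (cov.liftHomotopy_lifts D 0 h0) (1, x)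
    simp only [ContinuousMap.coe_mk]
    rw [h1]
    simp [D]
  choose φ hφ using key
  exact ⟨⟨fun x i => φ i x, by fun_prop⟩, fun x i => hφ i x⟩

theorem homotopic_add {Y : Type} [TopologicalSpace Y] {k : ℕ} (ρ : C(Y, Torus k))
    (ξ : C(Y, Fin k → ℝ)) :
    ρ.Homotopic ⟨fun y i => ρ y i + ((ξ y i : ℝ) : AddCircle (1 : ℝ)), by
      have : Continuous ((↑) : ℝ → AddCircle (1 : ℝ)) := AddCircle.continuous_mk' 1
      fun_prop⟩ := by
  have hc : Continuous ((↑) : ℝ → AddCircle (1 : ℝ)) := AddCircle.continuous_mk' 1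
  refine ⟨⟨⟨fun p i => ρ p.2 i + (((p.1 : ℝ) * ξ p.2 i : ℝ) : AddCircle (1 : ℝ)), ?_⟩, ?_, ?_⟩⟩
  · fun_prop
  · intro x
    ext i
    simp
  · intro x
    ext i
    simp

end Pool.Agent.Toral
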