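import Pool.Agent.Toral.Minor
import Pool.Agent.Toral.Alt
import Pool.Agent.Toral.Coch

/-!
# Entropy is at least the growth of toral classes
-/

namespace Pool.Agent.Toral

open Set Dynamics Uniformity ExpGrowth

theorem map_pow_iMulti {m k : ℕ} (A : Matrix (Fin m) (Fin m) ℤ) (B : Matrix (Fin m) (Fin k) ℤ)
    (n : ℕ) :
    ((exteriorPower.map k (linC A)) ^ n)
      (exteriorPower.ιMulti ℂ k (fun j i => ((B i j : ℤ) : ℂ))) =
    exteriorPower.ιMulti ℂ k (fun j i => (((A ^ n * B) i j : ℤ) : ℂ)) := by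
  induction n with
  | zero => simp
  | succ n ih =>
    rw [pow_succ', Module.End.mul_apply, ih, exteriorPower.map_apply_ιMulti]
    congr 1
    funext j i
    rw [pow_succ', Matrix.mul_assoc]
    simp only [Function.comp_apply, linC, Matrix.toLin'_apply, Matrix.mulVec, dotProduct,
      Matrix.map_apply]
    rw [Matrix.mul_apply]
    push_cast
    rfl

theorem span_bound {X : Type} {m k : ℕ} [TopologicalSpace X] (f : X → X) (hf : Continuous f)
    (J : C(X, Torus m)) (A : Matrix (Fin m) (Fin m) ℤ) (φ : C(X, Fin m → ℝ))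
    (hφ : ∀ x i, J (f x) i = torusMap A (J x) i + ((φ x i : ℝ) : AddCircle (1 : ℝ)))
    (U : SetRel X X) (hU : ∀ c x x', (x, c) ∈ U → (x', c) ∈ U → Near A J φ x x')
    (w : ⋀[ℂ]^k (Fin m → ℂ)) (hw : w ∈ Submodule.span ℂ {w | IsToral J w})
    (ω : (⋀[ℂ]^k (Fin m → ℂ)) →ₗ[ℂ] ℂ) :
    ∃ C : ℝ, 0 ≤ C ∧ ∀ (n : ℕ) (s : Finset X), IsDynCoverOf f univ U n s →
      ‖ω (((exteriorPower.map k (linC A)) ^ n) w)‖ ≤ C * s.card := by
  induction hw using Submodule.span_induction with
  | mem w hw =>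
    obtain ⟨Y, _, _, τ, ρ, B, hρ, hτ, rfl⟩ := hw
    obtain ⟨P, hP⟩ := minor_le f hf J A φ hφ U hU Y τ ρ B hρ hτ
    obtain ⟨C, hC, hCb⟩ := alternating_bound
      ((exteriorPower.alternatingMapLinearEquiv (R := ℂ) (n := k) (M := Fin m → ℂ)
        (N := ℂ)).symm ω)
    refine ⟨C * P, by positivity, fun n s hs => ?_⟩
    rw [map_pow_iMulti]
    have h1 := hCb (fun j i => (((A ^ n * B) i j : ℤ) : ℂ)) (P * s.card) ?_
    · rw [exteriorPower.alternatingMapLinearEquiv_symm_apply] at h1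
      rw [mul_assoc]
      exact h1
    · intro I
      have h2 := hP n s hs I
      have h3 : (Matrix.of fun a b => (((A ^ n * B) (I b) a : ℤ) : ℂ)) =
          (((A ^ n * B).submatrix I id).map (Int.cast : ℤ → ℂ)).transpose := by
        ext a b
        rfl
      have h4 : (((A ^ n * B).submatrix I id).map (Int.cast : ℤ → ℂ)).det =
          ((((A ^ n * B).submatrix I id).det : ℤ) : ℂ) := (Int.cast_det _).symm
      rw [h3, Matrix.det_transpose, h4, Complex.norm_intCast]
      exact h2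
  | zero => exact ⟨0, le_rfl, fun n s _ => by simp⟩
  | add w w' _ _ ih ih' =>
    obtain ⟨C, hC, h⟩ := ih
    obtain ⟨C', hC', h'⟩ := ih'
    refine ⟨C + C', by positivity, fun n s hs => ?_⟩
    rw [map_add, map_add, add_mul]
    exact (norm_add_le _ _).trans (add_le_add (h n s hs) (h' n s hs))
  | smul c w _ ih =>
    obtain ⟨C, hC, h⟩ := ih
    refine ⟨‖c‖ * C, by positivity, fun n s hs => ?_⟩
    rw [map_smul, map_smul, norm_smul, mul_assoc]
    exact mul_le_mul_of_nonneg_left (h n s hs) (norm_nonneg _)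

theorem le_entropy_of_bound {X : Type} [UniformSpace X] [Nonempty X] (f : X → X)
    (U : SetRel X X) (hU : U ∈ 𝓤 X) (M c C : ℝ) (hM : 0 ≤ M) (hc : 0 < c)
    (h : ∀ (n : ℕ) (s : Finset X), IsDynCoverOf f univ U n s → c * M ^ n ≤ C * s.card) :
    ((Real.log M : ℝ) : EReal) ≤ coverEntropy f univ := by
  rcases hM.eq_or_lt with rfl | hM'
  · simp only [Real.log_zero, EReal.coe_zero]
    exact coverEntropy_nonneg f univ_nonempty
  refine le_trans ?_ (coverEntropyEntourage_le_coverEntropy f univ hU)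
  have hCpos : 0 < max C 1 := lt_of_lt_of_le one_pos (le_max_right _ _)
  have h1 : ∀ n : ℕ, ENNReal.ofReal (c / max C 1) * (ENNReal.ofReal M) ^ n ≤
      ((coverMincard f univ U n : ℕ∞) : ENNReal) := by
    intro n
    by_cases htop : coverMincard f univ U n = ⊤
    · rw [htop]
      simp
    · obtain ⟨s, hs, hcard⟩ := (coverMincard_finite_iff f univ U n).1
        (lt_top_iff_ne_top.2 htop)
      rw [← hcard]
      have h2 := h n s hs
      have h3 : c / max C 1 * M ^ n ≤ s.card := by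
        rw [div_mul_eq_mul_div, div_le_iff₀ hCpos]
        refine h2.trans ?_
        rw [mul_comm]
        exact mul_le_mul_of_nonneg_left (le_max_left _ _) (by positivity)
      rw [← ENNReal.ofReal_pow hM, ← ENNReal.ofReal_mul (by positivity)]
      refine (ENNReal.ofReal_le_ofReal h3).trans ?_
      rw [ENNReal.ofReal_natCast]
      simp
  have h2 : expGrowthSup (fun n => (ENNReal.ofReal M) ^ n) ≤
      coverEntropyEntourage f univ U := by
    refine expGrowthSup_of_eventually_ge (b := ENNReal.ofReal (c / max C 1)) ?_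
      (Filter.Eventually.of_forall h1)
    rw [Ne, ENNReal.ofReal_eq_zero, not_le]
    positivity
  rw [expGrowthSup_pow] at h2
  refine le_trans ?_ h2
  rw [ENNReal.log_ofReal_of_pos hM']

theorem entropy_ge {X : Type} [UniformSpace X] [CompactSpace X] {m k : ℕ} (f : C(X, X))
    (J : C(X, Torus m)) (A : Matrix (Fin m) (Fin m) ℤ)
    (hA : (J.comp f).Homotopic ((torusMap A).comp J))
    (μ : ℂ) (w : ⋀[ℂ]^k (Fin m → ℂ)) (hw : w ∈ Submodule.span ℂ {w | IsToral J w})
    (hw0 : w ≠ 0) (hμ : exteriorPower.map k (linC A) w = μ • w) :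
    ((Real.log ‖μ‖ : ℝ) : EReal) ≤ coverEntropy f univ := by
  obtain ⟨φ, hφ⟩ := exists_lift hA.symm
  obtain ⟨U, hU, hUn⟩ := exists_entourage A J φ
  obtain ⟨ω, hω⟩ : ∃ ω : (⋀[ℂ]^k (Fin m → ℂ)) →ₗ[ℂ] ℂ, ω w ≠ 0 := by
    by_contra hcon
    push Not at hcon
    exact hw0 ((Module.forall_dual_apply_eq_zero_iff ℂ w).1 hcon)
  have hX : Nonempty X := by
    by_contra hX
    apply hw0
    have h1 : {w : ⋀[ℂ]^k (Fin m → ℂ) | IsToral J w} = ∅ := by
      rw [Set.eq_empty_iff_forall_notMem]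
      rintro w' ⟨Y, _, _, τ, ρ, B, hρ, -, -⟩
      obtain ⟨y, -⟩ := hρ ρ (ContinuousMap.Homotopic.refl ρ) 0
      exact hX ⟨τ y⟩
    rw [h1, Submodule.span_empty, Submodule.mem_bot] at hw
    exact hw
  obtain ⟨C, hC, hCb⟩ := span_bound f f.continuous J A φ (fun x i => hφ x i) U hUn w hw ω
  refine le_entropy_of_bound f U hU ‖μ‖ ‖ω w‖ C (norm_nonneg _) (norm_pos_iff.2 hω) ?_
  intro n s hs
  have h1 := hCb n s hs
  have h2 : ((exteriorPower.map k (linC A)) ^ n) w = μ ^ n • w := by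
    clear h1 hs
    induction n with
    | zero => simp
    | succ n ih =>
      rw [pow_succ', Module.End.mul_apply, ih, map_smul, hμ, smul_smul, pow_succ]
  rw [h2, map_smul, norm_smul, norm_pow, mul_comm] at h1
  exact h1

end Pool.Agent.Toral
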