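import Pool.Agent.Toral.Track

/-!
# Minors are bounded by the number of orbit pieces
-/

namespace Pool.Agent.Toral

open Set Dynamics Uniformity

theorem exists_entourage {X : Type} [UniformSpace X] [CompactSpace X] {m : ℕ}
    (A : Matrix (Fin m) (Fin m) ℤ) (J : C(X, Torus m)) (φ : C(X, Fin m → ℝ)) :
    ∃ U ∈ 𝓤 X, ∀ c x x', (x, c) ∈ U → (x', c) ∈ U → Near A J φ x x' := by
  have hb := one_le_bd A
  have hη : 0 < 1 / (4 * bd A) := by positivity
  have hJ := CompactSpace.uniformContinuous_of_continuous J.continuous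
  have hφ := CompactSpace.uniformContinuous_of_continuous φ.continuous
  have h1 : {p : X × X | dist (J p.1) (J p.2) < 1 / (4 * bd A)} ∈ 𝓤 X :=
    hJ (Metric.dist_mem_uniformity hη)
  have h2 : {p : X × X | dist (φ p.1) (φ p.2) < 1 / 4} ∈ 𝓤 X :=
    hφ (Metric.dist_mem_uniformity (by norm_num))
  obtain ⟨U, hU, hsymm, hUU⟩ := comp_symm_mem_uniformity_sets (Filter.inter_mem h1 h2)
  refine ⟨U, hU, fun c x x' hx hx' => ?_⟩
  have h3 : (x, x') ∈ {p : X × X | dist (J p.1) (J p.2) < 1 / (4 * bd A)} ∩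
      {p : X × X | dist (φ p.1) (φ p.2) < 1 / 4} :=
    hUU ⟨c, hx, hsymm.symm _ _ hx'⟩
  refine ⟨fun i => ?_, fun i => ?_⟩
  · have h4 := (dist_pi_lt_iff (by norm_num)).1 h3.2 i
    rwa [Real.dist_eq] at h4
  · have h4 := (dist_pi_lt_iff hη).1 h3.1 i
    rwa [dist_eq_norm] at h4

/-- The map which sends `v` in the unit cube to the value of the lift at time zero. -/
theorem exists_pieces {Y : Type} [TopologicalSpace Y] [CompactSpace Y] {m k : ℕ}
    (B : Matrix (Fin m) (Fin k) ℤ) (ψ : C(Y, Fin m → ℝ)) {η : ℝ} (hη : 0 < η) :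
    ∃ T : Finset (Fin m → ℝ), ∀ y, ∀ v ∈ (Icc 0 1 : Set (Fin k → ℝ)), ∃ g ∈ T, ∀ i,
      |((B.map (Int.cast : ℤ → ℝ)).mulVec v + ψ y) i - g i| < η := by
  have hc : IsCompact ((fun p : Y × (Fin k → ℝ) =>
      (B.map (Int.cast : ℤ → ℝ)).mulVec p.2 + ψ p.1) ''
      ((univ : Set Y) ×ˢ (Icc 0 1 : Set (Fin k → ℝ)))) := by
    refine (isCompact_univ.prod isCompact_Icc).image ?_
    refine Continuous.add ?_ (ψ.continuous.comp continuous_fst)
    exact Continuous.matrix_mulVec continuous_const continuous_snd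
  obtain ⟨t, -, htf, ht⟩ := hc.finite_cover_balls hη
  refine ⟨htf.toFinset, fun y v hv => ?_⟩
  have h1 := ht ⟨(y, v), ⟨mem_univ y, hv⟩, rfl⟩
  rw [mem_iUnion₂] at h1
  obtain ⟨g, hg, hgy⟩ := h1
  refine ⟨g, htf.mem_toFinset.2 hg, fun i => ?_⟩
  have h2 := (dist_pi_lt_iff hη).1 (Metric.mem_ball.1 hgy) i
  rwa [Real.dist_eq] at h2

theorem minor_le {X : Type} {m : ℕ} [TopologicalSpace X] (f : X → X) (hf : Continuous f)
    (J : C(X, Torus m)) (A : Matrix (Fin m) (Fin m) ℤ) (φ : C(X, Fin m → ℝ))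
    (hφ : ∀ x i, J (f x) i = torusMap A (J x) i + ((φ x i : ℝ) : AddCircle (1 : ℝ)))
    (U : SetRel X X) (hU : ∀ c x x', (x, c) ∈ U → (x', c) ∈ U → Near A J φ x x')
    {k : ℕ} (Y : Type) [TopologicalSpace Y] [CompactSpace Y] (τ : C(Y, X)) (ρ : C(Y, Torus k))
    (B : Matrix (Fin m) (Fin k) ℤ) (hρ : Essential ρ)
    (hτ : (J.comp τ).Homotopic ((torusMap B).comp ρ)) :
    ∃ P : ℕ, ∀ (n : ℕ) (s : Finset X), IsDynCoverOf f univ U n s →
      ∀ I : Fin k → Fin m, |((((A ^ n * B).submatrix I id).det : ℤ) : ℝ)| ≤ P * s.card := by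
  classical
  have hb := one_le_bd A
  obtain ⟨ψ, hψ⟩ := exists_lift hτ.symm
  obtain ⟨T, hT⟩ := exists_pieces B ψ (η := 1 / (4 * bd A) / 2) (by positivity)
  refine ⟨T.card, fun n s hs I => ?_⟩
  set E : Matrix (Fin k) (Fin k) ℝ := ((A ^ n * B).submatrix I id).map (Int.cast : ℤ → ℝ)
    with hE
  have hEdet : ((((A ^ n * B).submatrix I id).det : ℤ) : ℝ) = E.det := by
    rw [hE]
    exact (Int.cast_det _)
  rw [hEdet]
  by_cases hdet : E.det = 0
  · rw [hdet, abs_zero]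
    positivity
  let a : Y → Fin k → ℝ := fun y i => lift A f φ (τ y) (ψ y) n (I i)
  have hac : Continuous a := continuous_pi fun i =>
    (continuous_apply (I i)).comp (continuous_lift A f hf φ τ ψ n)
  have hEl : ∀ y v, E.mulVec v + a y = fun i =>
      lift A f φ (τ y) ((B.map (Int.cast : ℤ → ℝ)).mulVec v + ψ y) n (I i) := by
    intro y v
    funext i
    rw [lift_add, Matrix.mulVec_mulVec]
    have h1 : (A ^ n).map (Int.cast : ℤ → ℝ) * B.map (Int.cast : ℤ → ℝ) =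
        (A ^ n * B).map (Int.cast : ℤ → ℝ) :=
      (Matrix.map_mul (f := Int.castRingHom ℝ)).symm
    rw [h1]
    rfl
  let D : Set (Y × (Fin k → ℝ)) :=
    {p | p.2 ∈ (Icc 0 1 : Set (Fin k → ℝ)) ∧ ∀ i, ((p.2 i : ℝ) : AddCircle (1 : ℝ)) = ρ p.1 i}
  let F : Y × (Fin k → ℝ) → Fin k → ℝ := fun p => p.2 + E⁻¹.mulVec (a p.1)
  have hlift0 : ∀ p ∈ D, ∀ i, ((((B.map (Int.cast : ℤ → ℝ)).mulVec p.2 + ψ p.1) i : ℝ) :
      AddCircle (1 : ℝ)) = J (τ p.1) i := by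
    intro p hp i
    have h1 := hψ p.1 i
    simp only [ContinuousMap.comp_apply] at h1
    rw [h1, Pi.add_apply, AddCircle.coe_add]
    congr 1
    simp only [torusMap, ContinuousMap.coe_mk, Matrix.mulVec, dotProduct, Matrix.map_apply]
    have : ((∑ j, (B i j : ℝ) * p.2 j : ℝ) : AddCircle (1 : ℝ)) =
        ∑ j, (((B i j : ℝ) * p.2 j : ℝ) : AddCircle (1 : ℝ)) :=
      map_sum (QuotientAddGroup.mk' (AddSubgroup.zmultiples (1 : ℝ))) _ _
    rw [this]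
    refine Finset.sum_congr rfl fun j _ => ?_
    rw [← hp.2 j, ← AddCircle.coe_zsmul, zsmul_eq_mul]
  let Pc : (Fin m → ℝ) × X → Set (Fin k → ℝ) := fun gc =>
    F '' {p | p ∈ D ∧ (∀ i, |((B.map (Int.cast : ℤ → ℝ)).mulVec p.2 + ψ p.1) i - gc.1 i| <
      1 / (4 * bd A) / 2) ∧ ∀ j < n, (f^[j] (τ p.1), f^[j] gc.2) ∈ U}
  have hmain := det_le_card (T ×ˢ s) E (F '' D) Pc ?_ ?_ ?_
  · rw [Finset.card_product] at hmain
    push_cast at hmain
    exact hmain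
  · intro u
    let ξ : C(Y, Fin k → ℝ) := ⟨fun y => E⁻¹.mulVec (a y),
      Continuous.matrix_mulVec continuous_const hac⟩
    obtain ⟨y, hy⟩ := hρ _ (homotopic_add ρ ξ) (fun i => ((u i : ℝ) : AddCircle (1 : ℝ)))
    have hy' : ∀ i, ρ y i + ((ξ y i : ℝ) : AddCircle (1 : ℝ)) =
        ((u i : ℝ) : AddCircle (1 : ℝ)) := fun i => congr_fun hy i
    have hv : ∀ i, ∃ v : ℝ, v ∈ Icc (0 : ℝ) 1 ∧ ((v : ℝ) : AddCircle (1 : ℝ)) = ρ y i := by
      intro i
      obtain ⟨r, hr⟩ := QuotientAddGroup.mk_surjective (ρ y i)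
      refine ⟨Int.fract r, ⟨Int.fract_nonneg r, (Int.fract_lt_one r).le⟩, ?_⟩
      have h1 : (((⌊r⌋ : ℤ) : ℝ) : AddCircle (1 : ℝ)) = 0 := by
        rw [AddCircle.coe_eq_zero_iff]
        exact ⟨⌊r⌋, by simp⟩
      rw [Int.fract, AddCircle.coe_sub, h1, sub_zero]
      exact hr
    choose v hv1 hv2 using hv
    have hz : ∀ i, ∃ z : ℤ, u i + z = v i + ξ y i := by
      intro i
      have h1 : (((v i + ξ y i - u i : ℝ)) : AddCircle (1 : ℝ)) = 0 := by
        rw [AddCircle.coe_sub, AddCircle.coe_add, hv2 i, hy' i, sub_self]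
      rw [AddCircle.coe_eq_zero_iff] at h1
      obtain ⟨z, hz⟩ := h1
      refine ⟨z, ?_⟩
      rw [zsmul_eq_mul, mul_one] at hz
      rw [hz]
      ring
    choose z hz using hz
    refine ⟨z, (y, v), ⟨⟨fun i => (hv1 i).1, fun i => (hv1 i).2⟩, hv2⟩, ?_⟩
    funext i
    exact (hz i).symm
  · rintro _ ⟨p, hp, rfl⟩
    obtain ⟨g, hg, hgp⟩ := hT p.1 p.2 hp.1
    obtain ⟨c, hc, hcp⟩ := hs (mem_univ (τ p.1))
    refine mem_iUnion₂.2 ⟨(g, c), Finset.mem_product.2 ⟨hg, hc⟩, ?_⟩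
    exact ⟨p, ⟨hp, hgp, mem_dynEntourage.1 hcp⟩, rfl⟩
  · rintro ⟨g, c⟩ - _ ⟨p, ⟨hp, hgp, hcp⟩, rfl⟩ _ ⟨p', ⟨hp', hgp', hcp'⟩, rfl⟩ i
    have h1 : E.mulVec (F p - F p') = (E.mulVec p.2 + a p.1) - (E.mulVec p'.2 + a p'.1) := by
      simp only [F]
      rw [Matrix.mulVec_sub, Matrix.mulVec_add, Matrix.mulVec_add, Matrix.mulVec_mulVec,
        Matrix.mulVec_mulVec, Matrix.mul_nonsing_inv _ (Ne.isUnit hdet), Matrix.one_mulVec,
        Matrix.one_mulVec]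
    rw [h1, hEl, hEl]
    simp only [Pi.sub_apply]
    refine (track A J φ (fun n => f^[n] (τ p.1)) (fun n => f^[n] (τ p'.1))
      (fun n i => lift A f φ (τ p.1) ((B.map (Int.cast : ℤ → ℝ)).mulVec p.2 + ψ p.1) n i -
        lift A f φ (τ p'.1) ((B.map (Int.cast : ℤ → ℝ)).mulVec p'.2 + ψ p'.1) n i)
      ?_ ?_ ?_ n ?_ (I i)).le
    · intro i
      have h2 := hgp i
      have h3 := hgp' i
      simp only [lift]
      rw [abs_lt] at h2 h3 ⊢
      constructor <;> linarith [h2.1, h2.2, h3.1, h3.2]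
    · intro n i
      rw [AddCircle.coe_sub, lift_coe A f J φ hφ _ _ (hlift0 p hp),
        lift_coe A f J φ hφ _ _ (hlift0 p' hp')]
    · intro n i
      simp only [lift, Pi.add_apply]
      have : ((A.map (Int.cast : ℤ → ℝ)).mulVec fun i =>
          lift A f φ (τ p.1) ((B.map (Int.cast : ℤ → ℝ)).mulVec p.2 + ψ p.1) n i -
          lift A f φ (τ p'.1) ((B.map (Int.cast : ℤ → ℝ)).mulVec p'.2 + ψ p'.1) n i) =
          (A.map (Int.cast : ℤ → ℝ)).mulVec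
            (lift A f φ (τ p.1) ((B.map (Int.cast : ℤ → ℝ)).mulVec p.2 + ψ p.1) n) -
          (A.map (Int.cast : ℤ → ℝ)).mulVec
            (lift A f φ (τ p'.1) ((B.map (Int.cast : ℤ → ℝ)).mulVec p'.2 + ψ p'.1) n) := by
        rw [← Matrix.mulVec_sub]
        rfl
      rw [this]
      simp only [Pi.sub_apply]
      ring
    · intro j hj
      exact hU _ _ _ (hcp j hj) (hcp' j hj)

end Pool.Agent.Toral
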