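import Pool.Agent.Toral.Surj

/-!
# The period map with values in the minors
-/

namespace Pool.Agent.Toral

open CategoryTheory Limits Simplicial Opposite

/-- The `k x k` minors of the edges (from vertex `0`) of a lift of a singular simplex: for a choice
`I` of `k` coordinates, the determinant of the coordinates `I` of the edges. -/
noncomputable def minors {k m : ℕ} (σ : C(Spx k, Torus m)) (I : Fin k → Fin m) : ℂ :=
  (Matrix.of fun j i : Fin k => ((edge σ j.succ (I i) : ℝ) : ℂ)).det

/-- The minor as an alternating form. -/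
noncomputable def minorForm {k m : ℕ} (I : Fin k → Fin m) : (Fin m → ℂ) [⋀^Fin k]→ₗ[ℂ] ℂ :=
  Matrix.detRowAlternating.compLinearMap (LinearMap.funLeft ℂ ℂ I)

theorem minorForm_apply {k m : ℕ} (I : Fin k → Fin m) (v : Fin k → Fin m → ℂ) :
    minorForm I v = (Matrix.of fun j i : Fin k => v j (I i)).det := rfl

/-- All minors. -/
noncomputable def minorMap (k m : ℕ) :
    (⋀[ℂ]^k (Fin m → ℂ)) →ₗ[ℂ] ((Fin k → Fin m) → ℂ) :=
  LinearMap.pi fun I => exteriorPower.alternatingMapLinearEquiv (minorForm I)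

theorem minorMap_iMulti {k m : ℕ} (v : Fin k → Fin m → ℂ) (I : Fin k → Fin m) :
    minorMap k m (exteriorPower.ιMulti ℂ k v) I =
      (Matrix.of fun j i : Fin k => v j (I i)).det := by
  simp only [minorMap, LinearMap.pi_apply,
    exteriorPower.alternatingMapLinearEquiv_apply_ιMulti, minorForm_apply]

theorem minorMap_kvec {k m : ℕ} (σ : C(Spx k, Torus m)) : minorMap k m (kvec σ) = minors σ := by
  funext I
  rw [kvec, minorMap_iMulti]
  rfl

theorem minorMap_injective (k m : ℕ) : Function.Injective (minorMap k m) := by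
  rw [← LinearMap.ker_eq_bot, LinearMap.ker_eq_bot']
  intro w hw
  rw [← Module.forall_dual_apply_eq_zero_iff ℂ]
  intro ω
  let ω' : (Fin m → ℂ) [⋀^Fin k]→ₗ[ℂ] ℂ :=
    (exteriorPower.alternatingMapLinearEquiv (R := ℂ) (n := k) (M := Fin m → ℂ) (N := ℂ)).symm ω
  have h1 : (k.factorial : ℂ) • ω = ∑ I : Fin k → Fin m,
      ω' (fun i => Pi.single (I i) 1) • ((LinearMap.proj I).comp (minorMap k m)) := by
    apply exteriorPower.linearMap_ext
    ext v
    rw [LinearMap.compAlternatingMap_apply, LinearMap.compAlternatingMap_apply,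
      LinearMap.smul_apply, LinearMap.sum_apply]
    have h2 := alternating_factorial ω' v
    have h3 : ω' v = ω (exteriorPower.ιMulti ℂ k v) :=
      exteriorPower.alternatingMapLinearEquiv_symm_apply _ _
    rw [h3] at h2
    rw [smul_eq_mul, h2]
    refine Finset.sum_congr rfl fun I _ => ?_
    rw [LinearMap.smul_apply, LinearMap.comp_apply, LinearMap.proj_apply, minorMap_iMulti,
      smul_eq_mul, mul_comm]
  have h4 := congr_arg (fun q : (⋀[ℂ]^k (Fin m → ℂ)) →ₗ[ℂ] ℂ => q w) h1
  simp only [LinearMap.smul_apply, LinearMap.sum_apply, LinearMap.comp_apply, hw, map_zero,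
    smul_zero, Finset.sum_const_zero] at h4
  have h5 : (k.factorial : ℂ) ≠ 0 := Nat.cast_ne_zero.2 k.factorial_ne_zero
  exact (smul_eq_zero.1 h4).resolve_left h5

/-- The cochain of minors. -/
noncomputable def cochain (k m : ℕ) :
    (Ch (Torus m)).X k ⟶ ModuleCat.of ℂ ((Fin k → Fin m) → ℂ) :=
  Cofan.IsColimit.desc
    ((TopCat.toSSet.obj (TopCat.of (Torus m))).isColimitChainComplexXCofan (ModuleCat.of ℂ ℂ) k)
    (fun σ => ModuleCat.ofHom (LinearMap.toSpanSingleton ℂ _
      (minors (TopCat.toSSetObjEquiv (TopCat.of (Torus m)) (op ⦋k⦌) σ))))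

theorem cochain_eq (k m : ℕ) : cochain k m = theta k m ≫ ModuleCat.ofHom (minorMap k m) := by
  refine SSet.chainComplex_hom_ext fun σ => ?_
  rw [← Category.assoc, ι_theta]
  have h1 : SSet.ιChainComplex (R := ModuleCat.of ℂ ℂ) _ σ ≫ cochain k m =
      ModuleCat.ofHom (LinearMap.toSpanSingleton ℂ _
        (minors (TopCat.toSSetObjEquiv (TopCat.of (Torus m)) (op ⦋k⦌) σ))) :=
    Cofan.IsColimit.fac _ _ σ
  rw [h1, ← ModuleCat.ofHom_comp]
  congr 1
  refine LinearMap.ext fun x => ?_
  rw [LinearMap.comp_apply, LinearMap.toSpanSingleton_apply, LinearMap.toSpanSingleton_apply,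
    map_smul, minorMap_kvec]

theorem d_cochain (k m : ℕ) : (Ch (Torus m)).d (k + 1) k ≫ cochain k m = 0 := by
  rw [cochain_eq, ← Category.assoc, d_theta, zero_comp]

/-- The period map `H_k((R/Z)^m; C) -> C^(Fin k -> Fin m)`, induced by the cochain of minors. -/
noncomputable def Period (k m : ℕ) : H k (Torus m) →ₗ[ℂ] ((Fin k → Fin m) → ℂ) :=
  ((Ch (Torus m)).homologyι k ≫
    (Ch (Torus m)).descOpcycles (cochain k m) (k + 1) (by simp) (d_cochain k m)).hom

theorem Period_apply (k m : ℕ) (c : H k (Torus m)) :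
    Period k m c = minorMap k m (period k m c) := by
  have h1 : (Ch (Torus m)).homologyι k ≫
      (Ch (Torus m)).descOpcycles (cochain k m) (k + 1) (by simp) (d_cochain k m) =
      ((Ch (Torus m)).homologyι k ≫
      (Ch (Torus m)).descOpcycles (theta k m) (k + 1) (by simp) (d_theta k m)) ≫
      ModuleCat.ofHom (minorMap k m) := by
    rw [Category.assoc, HomologicalComplex.descOpcycles_comp]
    congr 1
    simp only [cochain_eq]
  rw [Period, h1]
  rfl

end Pool.Agent.Toral
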