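import Pool.Agent.Toral.Per

/-!
# Toral eigenvalues
-/

namespace Pool.Agent.Toral

/-- `μ` is a toral eigenvalue of `f` in degree `k` (relative to `J : X -> (R/Z)^m`): there is a
complex combination `c` of toral classes such that the period of `J_* c` is not zero and the
period of `J_* f_* c` is `μ` times the period of `J_* c`. -/
def IsToralEigenvalue {X : Type} [TopologicalSpace X] {m : ℕ} (k : ℕ) (f : C(X, X))
    (J : C(X, Torus m)) (μ : ℂ) : Prop :=
  ∃ c ∈ toralSpan k J, Period k m (Hmap k J c) ≠ 0 ∧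
    Period k m (Hmap k J (Hmap k f c)) = μ • Period k m (Hmap k J c)

/-- The homology of `X` in degree `k` is toral: it is spanned by toral classes and the period
map of `J` is injective on it. -/
def HasToralHomology {X : Type} [TopologicalSpace X] {m : ℕ} (k : ℕ) (J : C(X, Torus m)) :
    Prop :=
  toralSpan k J = ⊤ ∧ Function.Injective fun c : H k X => Period k m (Hmap k J c)

theorem log_le_entropy {X : Type} [UniformSpace X] [CompactSpace X] {m k : ℕ} (f : C(X, X))
    (J : C(X, Torus m)) (A : Matrix (Fin m) (Fin m) ℤ)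
    (hA : (J.comp f).Homotopic ((torusMap A).comp J)) (μ : ℂ)
    (h : IsToralEigenvalue k f J μ) :
    ((Real.log ‖μ‖ : ℝ) : EReal) ≤ Dynamics.coverEntropy (⇑f) Set.univ := by
  obtain ⟨c, hc, h0, h1⟩ := h
  rw [Period_apply] at h0
  rw [Period_apply, Period_apply, ← map_smul] at h1
  refine entropy_ge_log f J A hA μ c hc (minorMap_injective k m h1) ?_
  intro h2
  rw [h2, map_zero] at h0
  exact h0 rfl

theorem isToralEigenvalue_of_hasEigenvalue {X : Type} [TopologicalSpace X] {m k : ℕ}
    (f : C(X, X)) (J : C(X, Torus m)) (hX : HasToralHomology k J) (μ : ℂ)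
    (h : Module.End.HasEigenvalue (Hmap k f) μ) : IsToralEigenvalue k f J μ := by
  obtain ⟨c, hc⟩ := h.exists_hasEigenvector
  refine ⟨c, by rw [hX.1]; trivial, ?_, ?_⟩
  · intro h0
    apply hc.2
    apply hX.2
    simp only [h0, map_zero]
  · rw [hc.apply_eq_smul, map_smul, map_smul]

theorem exists_Period (k : ℕ) : ∃ η : H k (Torus k), ∀ (m : ℕ) (B : Matrix (Fin m) (Fin k) ℤ)
    (I : Fin k → Fin m), Period k m (Hmap k (torusMap B) η) I =
      (((B.submatrix I id).det : ℤ) : ℂ) := by
  obtain ⟨η, hη⟩ := period_surjective k k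
    (exteriorPower.ιMulti ℂ k (fun j => (Pi.single j 1 : Fin k → ℂ)))
  refine ⟨η, fun m B I => ?_⟩
  rw [Period_apply, period_Hmap_torusMap, hη, exteriorPower.map_apply_ιMulti, minorMap_iMulti]
  have h1 : (((B.submatrix I id).det : ℤ) : ℂ) =
      ((B.submatrix I id).map (Int.cast : ℤ → ℂ)).det := Int.cast_det _
  rw [h1, ← Matrix.det_transpose]
  congr 1
  ext j i
  simp only [Function.comp_apply, linC, Matrix.toLin'_apply, Matrix.mulVec_single_one,
    Matrix.of_apply, Matrix.transpose_apply, Matrix.map_apply, Matrix.submatrix_apply, id,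
    Matrix.col_apply]

end Pool.Agent.Toral
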