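import Pool.Agent.Toral.Fund2

/-!
# The period map is onto
-/

namespace Pool.Agent.Toral

theorem iMulti_mem_range {m k : ℕ} (B : Matrix (Fin m) (Fin k) ℤ) :
    exteriorPower.ιMulti ℂ k (fun j i => ((B i j : ℤ) : ℂ)) ∈ LinearMap.range (period k m) := by
  have h1 := map_mem_span (1 : Matrix (Fin k) (Fin k) ℤ) (period k k (fundClass k))
  have h2 : linC (1 : Matrix (Fin k) (Fin k) ℤ) = LinearMap.id := by
    apply LinearMap.ext
    intro v
    simp [linC, Matrix.map_one]
  rw [h2, exteriorPower.map_id, LinearMap.id_apply, Submodule.mem_span_singleton] at h1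
  obtain ⟨t, ht⟩ := h1
  have ht0 : t ≠ 0 := by
    rintro rfl
    have h3 := detForm_period k
    rw [← ht, zero_smul, map_zero] at h3
    exact (Nat.cast_ne_zero.2 k.factorial_ne_zero) h3.symm
  refine ⟨t⁻¹ • Hmap k (torusMap B) (fundClass k), ?_⟩
  rw [map_smul, period_Hmap_torusMap, ← ht, map_smul, smul_smul, inv_mul_cancel₀ ht0, one_smul,
    exteriorPower.map_apply_ιMulti]
  congr 1
  funext j i
  simp only [Function.comp_apply, linC, Matrix.toLin'_apply, Matrix.mulVec, dotProduct,
    Matrix.map_apply]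
  rw [Finset.sum_eq_single j]
  · simp
  · intro l _ hl
    rw [Matrix.one_apply_ne hl]
    simp
  · intro h
    exact absurd (Finset.mem_univ j) h

theorem period_surjective (k m : ℕ) : Function.Surjective (period k m) := by
  rw [← LinearMap.range_eq_top, eq_top_iff]
  let s : Set (Fin m → ℂ) := {v | ∃ z : Fin m → ℤ, v = fun i => ((z i : ℤ) : ℂ)}
  have hs : Submodule.span ℂ s = ⊤ := by
    rw [eq_top_iff]
    intro v _
    have hv : v = ∑ r : Fin m, v r • (Pi.single r 1 : Fin m → ℂ) := pi_eq_sum_univ' v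
    rw [hv]
    refine Submodule.sum_mem _ fun r _ => Submodule.smul_mem _ _ (Submodule.subset_span ?_)
    refine ⟨Pi.single r 1, ?_⟩
    funext i
    by_cases h : i = r
    · subst h; simp
    · simp [Pi.single_eq_of_ne h]
  rw [← exteriorPower.ιMulti_span_of_span ℂ k (Fin m → ℂ) hs, Submodule.span_le]
  rintro _ ⟨a, ha, rfl⟩
  have h1 : ∀ j, ∃ z : Fin m → ℤ, a j = fun i => ((z i : ℤ) : ℂ) := fun j => ha ⟨j, rfl⟩
  choose z hz using h1
  have h2 : a = fun j i => (((Matrix.of fun i j => z j i : Matrix (Fin m) (Fin k) ℤ) i j : ℤ) :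
      ℂ) := by
    funext j i
    rw [hz j]
    rfl
  rw [h2]
  exact iMulti_mem_range _

end Pool.Agent.Toral
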