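import Pool.Agent.Toral.Lift
import Pool.Agent.Lib.Brouwer

/-!
# Maps between tori: the identity is essential, every map is homotopic to a linear one
-/

namespace Pool.Agent.Toral

open Set

theorem coe_cont : Continuous ((↑) : ℝ → AddCircle (1 : ℝ)) := AddCircle.continuous_mk' 1

/-- The projection `R^k -> T^k`. -/
noncomputable def proj (k : ℕ) : C(Fin k → ℝ, Torus k) where
  toFun v := fun i => ((v i : ℝ) : AddCircle (1 : ℝ))
  continuous_toFun := by
    have := coe_cont
    fun_prop

theorem proj_quot (k : ℕ) : IsOpenQuotientMap (proj k) :=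
  IsOpenQuotientMap.piMap (f := fun (_ : Fin k) => ((↑) : ℝ → AddCircle (1 : ℝ)))
    fun _ => QuotientAddGroup.isOpenQuotientMap_mk

theorem essential_id (k : ℕ) : Essential (ContinuousMap.id (Torus k)) := by
  intro g hg u
  obtain ⟨φ, hφ⟩ := exists_lift hg
  obtain ⟨u0, hu0⟩ := (proj_quot k).surjective u
  obtain ⟨R, hR⟩ : ∃ R : ℝ, ∀ x : Torus k, ‖WithLp.toLp 2 (φ x)‖ ≤ R := by
    have hc : Continuous fun x : Torus k => ‖WithLp.toLp 2 (φ x)‖ := by fun_prop
    obtain ⟨x0, -, hx0⟩ := isCompact_univ.exists_isMaxOn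
      (s := (univ : Set (Torus k))) ⟨0, mem_univ _⟩ hc.continuousOn
    exact ⟨_, fun x => hx0 (mem_univ x)⟩
  have hR1 : 0 < max R 1 := lt_of_lt_of_le one_pos (le_max_right _ _)
  let P : EuclideanSpace ℝ (Fin k) → Torus k := fun x =>
    proj k (u0 + (max R 1) • (WithLp.ofLp x))
  let p : EuclideanSpace ℝ (Fin k) → EuclideanSpace ℝ (Fin k) := fun x =>
    (max R 1)⁻¹ • (-(WithLp.toLp 2 (φ (P x))))
  have hp : Continuous p := by
    have h1 : Continuous P := (proj k).continuous.comp (by fun_prop)
    have h2 : Continuous fun x => φ (P x) := φ.continuous.comp h1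
    fun_prop
  obtain ⟨x, -, hx⟩ := Brouwer.fixed_point (f := p) hp.continuousOn (fun x _ => by
    rw [mem_closedBall_zero_iff, norm_smul, norm_neg, norm_inv, Real.norm_of_nonneg hR1.le,
      inv_mul_le_iff₀ hR1, mul_one]
    exact (hR _).trans (le_max_left _ _))
  have h3 : ∀ i, (max R 1) * x i = -(φ (P x) i) := by
    intro i
    have h4 : p x i = x i := by rw [hx]
    simp only [p, PiLp.smul_apply, PiLp.neg_apply, smul_eq_mul] at h4
    rw [← h4]
    field_simp
  refine ⟨P x, ?_⟩
  funext i
  rw [hφ, ← hu0]
  simp only [ContinuousMap.id_apply, P, proj, ContinuousMap.coe_mk, Pi.add_apply,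
    Pi.smul_apply, smul_eq_mul]
  rw [h3 i, ← AddCircle.coe_add]
  congr 1
  simp only [P, proj, ContinuousMap.coe_mk, Pi.add_apply, Pi.smul_apply, smul_eq_mul]
  ring

theorem homotopic_torusMap {k m : ℕ} (g : C(Torus k, Torus m)) :
    ∃ B : Matrix (Fin m) (Fin k) ℤ, g.Homotopic (torusMap B) := by
  classical
  -- the lift
  let G : C(Fin k → ℝ, Torus m) := g.comp (proj k)
  have hG : (ContinuousMap.const (Fin k → ℝ) (g 0)).Homotopic G := by
    refine ⟨⟨⟨fun p => g (proj k ((p.1 : ℝ) • p.2)), ?_⟩, ?_, ?_⟩⟩
    · exact g.continuous.comp ((proj k).continuous.comp (by fun_prop))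
    · intro v
      simp only [Set.Icc.coe_zero, zero_smul, ContinuousMap.const_apply]
      congr 1
    · intro v
      simp [G]
  obtain ⟨φ, hφ⟩ := exists_lift hG
  simp only [ContinuousMap.const_apply] at hφ
  -- integrality of the differences
  have hint : ∀ (z : Fin k → ℤ) (v : Fin k → ℝ) (i : Fin m), ∃ c : ℤ,
      φ (v + fun j => (z j : ℝ)) i - φ v i = c := by
    intro z v i
    have h1 : G (v + fun j => (z j : ℝ)) = G v := by
      simp only [G, ContinuousMap.comp_apply]
      congr 1
      funext j
      simp only [proj, ContinuousMap.coe_mk, Pi.add_apply, AddCircle.coe_add]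
      have : (((z j : ℤ) : ℝ) : AddCircle (1 : ℝ)) = 0 := by
        rw [AddCircle.coe_eq_zero_iff]
        exact ⟨z j, by simp⟩
      rw [this, add_zero]
    have h2 : ((φ (v + fun j => (z j : ℝ)) i - φ v i : ℝ) : AddCircle (1 : ℝ)) = 0 := by
      have h3 := hφ (v + fun j => (z j : ℝ)) i
      have h4 := hφ v i
      rw [h1, h4] at h3
      rw [AddCircle.coe_sub, sub_eq_zero]
      exact (add_left_cancel h3).symm
    rw [AddCircle.coe_eq_zero_iff] at h2
    obtain ⟨n, hn⟩ := h2
    exact ⟨n, by rw [← hn]; simp⟩
  have hconst : ∀ (z : Fin k → ℤ) (v v' : Fin k → ℝ) (i : Fin m),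
      φ (v + fun j => (z j : ℝ)) i - φ v i = φ (v' + fun j => (z j : ℝ)) i - φ v' i := by
    intro z v v' i
    choose c hc using fun v => hint z v i
    have hcc : Continuous fun v => (c v : ℝ) := by
      have : (fun v => (c v : ℝ)) = fun v => φ (v + fun j => (z j : ℝ)) i - φ v i := by
        funext v
        exact (hc v).symm
      rw [this]
      fun_prop
    have hcc' : Continuous c := by
      have := Int.isClosedEmbedding_coe_real.isInducing.continuous_iff (f := c)
      exact this.2 hcc
    have : c v = c v' := by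
      have := (isPreconnected_univ (α := Fin k → ℝ)).constant hcc'.continuousOn
        (mem_univ v) (mem_univ v')
      exact this
    rw [hc v, hc v', this]
  choose c hc using fun (j : Fin k) (i : Fin m) =>
    hint (Pi.single j 1) 0 i
  let B : Matrix (Fin m) (Fin k) ℤ := fun i j => c j i
  let D : (Fin k → ℝ) → Fin m → ℝ := fun v => φ v - (B.map (Int.cast : ℤ → ℝ)).mulVec v
  have hDc : Continuous D :=
    φ.continuous.sub (Continuous.matrix_mulVec continuous_const continuous_id)
  have hDper : ∀ (z : Fin k → ℤ) (v : Fin k → ℝ), D (v + fun j => (z j : ℝ)) = D v := by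
    let L : AddSubgroup (Fin k → ℤ) :=
      { carrier := {z | ∀ v : Fin k → ℝ, D (v + fun j => (z j : ℝ)) = D v}
        zero_mem' := fun v => by
          congr 1
          funext j
          simp
        add_mem' := by
          intro z z' hz hz' v
          have : (v + fun j => (((z + z') j : ℤ) : ℝ)) =
              (v + fun j => (z j : ℝ)) + fun j => (z' j : ℝ) := by
            funext j
            simp only [Pi.add_apply]
            push_cast
            ring
          rw [this, hz', hz]
        neg_mem' := by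
          intro z hz v
          have := hz (v + fun j => (((-z) j : ℤ) : ℝ))
          rw [← this]
          congr 1
          funext j
          simp }
    have hL : ∀ j : Fin k, Pi.single j 1 ∈ L := by
      intro j v
      funext i
      have h1 := hconst (Pi.single j 1) v 0 i
      rw [hc j i] at h1
      simp only [D, Pi.sub_apply, Matrix.mulVec_add, Pi.add_apply]
      have h2 : ((B.map (Int.cast : ℤ → ℝ)).mulVec
          fun j' => (((Pi.single j 1 : Fin k → ℤ) j' : ℤ) : ℝ)) i = c j i := by
        have h3 : (fun j' => (((Pi.single j 1 : Fin k → ℤ) j' : ℤ) : ℝ)) =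
            Pi.single j (1 : ℝ) := by
          funext j'
          by_cases h : j' = j
          · subst h; simp
          · simp [Pi.single_eq_of_ne h]
        rw [h3, Matrix.mulVec_single_one]
        rfl
      rw [h2]
      linarith
    intro z
    have hz : z = ∑ j, z j • (Pi.single j 1 : Fin k → ℤ) := by
      funext i
      simp [Finset.sum_apply, Pi.single_apply]
    have : z ∈ L := by
      rw [hz]
      exact L.sum_mem fun j _ => L.zsmul_mem (hL j) _
    exact this
  have hfac : Function.FactorsThrough D (proj k) := by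
    intro v v' hvv
    have h1 : ∀ j, ∃ z : ℤ, v' j + z = v j := by
      intro j
      have h2 : ((v j : ℝ) : AddCircle (1 : ℝ)) = ((v' j : ℝ) : AddCircle (1 : ℝ)) :=
        congr_fun hvv j
      have h3 : ((v j - v' j : ℝ) : AddCircle (1 : ℝ)) = 0 := by
        rw [AddCircle.coe_sub, h2, sub_self]
      rw [AddCircle.coe_eq_zero_iff] at h3
      obtain ⟨n, hn⟩ := h3
      refine ⟨n, ?_⟩
      rw [zsmul_eq_mul, mul_one] at hn
      rw [hn]
      ring
    choose z hz using h1
    have h4 : v = v' + fun j => (z j : ℝ) := by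
      funext j
      exact (hz j).symm
    rw [h4, hDper]
  let D' : C(Torus k, Fin m → ℝ) :=
    (proj_quot k).isQuotientMap.lift ⟨D, hDc⟩ hfac
  have hD' : ∀ v, D' (proj k v) = D v := fun v =>
    congr_fun (congr_arg DFunLike.coe
      ((proj_quot k).isQuotientMap.lift_comp (g := ⟨D, hDc⟩) hfac)) v
  obtain ⟨b, hb⟩ := (proj_quot m).surjective (g 0)
  refine ⟨B, ?_⟩
  let ξ : C(Torus k, Fin m → ℝ) := D' + ContinuousMap.const _ b
  have h5 := homotopic_add (torusMap B) ξ
  have h6 : g = ⟨fun y i => torusMap B y i + ((ξ y i : ℝ) : AddCircle (1 : ℝ)), by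
      have : Continuous ((↑) : ℝ → AddCircle (1 : ℝ)) := AddCircle.continuous_mk' 1
      fun_prop⟩ := by
    ext y i
    obtain ⟨v, rfl⟩ := (proj_quot k).surjective y
    have h7 := hφ v i
    simp only [G, ContinuousMap.comp_apply] at h7
    rw [h7, ← hb]
    have h8 : ξ (proj k v) i = D v i + b i := by
      simp only [ξ, ContinuousMap.add_apply, ContinuousMap.const_apply, Pi.add_apply, hD']
    have h9 : torusMap B (proj k v) i =
        (((B.map (Int.cast : ℤ → ℝ)).mulVec v i : ℝ) : AddCircle (1 : ℝ)) := by
      simp only [torusMap, proj, ContinuousMap.coe_mk, Matrix.mulVec, dotProduct,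
        Matrix.map_apply]
      have : ((∑ j, (B i j : ℝ) * v j : ℝ) : AddCircle (1 : ℝ)) =
          ∑ j, (((B i j : ℝ) * v j : ℝ) : AddCircle (1 : ℝ)) :=
        map_sum (QuotientAddGroup.mk' (AddSubgroup.zmultiples (1 : ℝ))) _ _
      rw [this]
      refine Finset.sum_congr rfl fun j _ => ?_
      rw [← AddCircle.coe_zsmul, zsmul_eq_mul]
    simp only [ContinuousMap.coe_mk, h8, h9, D]
    rw [← AddCircle.coe_add]
    simp only [proj, ContinuousMap.coe_mk, Pi.sub_apply]
    rw [← AddCircle.coe_add]
    congr 1
    ring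
  rw [h6]
  exact h5.symm

end Pool.Agent.Toral
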