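import Mathlib

/-!
# Sets which meet every class modulo the integer lattice
-/

namespace Pool.Agent.Toral

open MeasureTheory Set

theorem one_le_volume {k : ℕ} (S : Set (Fin k → ℝ))
    (hS : ∀ u : Fin k → ℝ, ∃ z : Fin k → ℤ, (fun i => u i + (z i : ℝ)) ∈ S) :
    1 ≤ volume S := by
  let C : (Fin k → ℤ) → Set (Fin k → ℝ) :=
    fun z => Set.pi univ fun i => Ico (z i : ℝ) (z i + 1)
  have hCm : ∀ z, MeasurableSet (C z) := fun z =>
    MeasurableSet.univ_pi fun i => measurableSet_Ico
  have hCd : Pairwise (Function.onFun Disjoint C) := by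
    intro z z' hzz
    rw [Function.onFun, Set.disjoint_left]
    intro u hu hu'
    apply hzz
    funext i
    have h1 := hu i (mem_univ i)
    have h2 := hu' i (mem_univ i)
    have h3 : (z i : ℝ) < z' i + 1 := h1.1.trans_lt h2.2
    have h4 : (z' i : ℝ) < z i + 1 := h2.1.trans_lt h1.2
    have h5 : z i < z' i + 1 := by exact_mod_cast h3
    have h6 : z' i < z i + 1 := by exact_mod_cast h4
    omega
  have hC0 : volume (C 0) = 1 := by
    simp [C, Real.volume_pi_Ico]
  have hcov : C 0 ⊆ ⋃ z : Fin k → ℤ,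
      (fun u : Fin k → ℝ => u + fun i => (z i : ℝ)) ⁻¹' (S ∩ C z) := by
    intro u hu
    obtain ⟨z, hz⟩ := hS u
    refine mem_iUnion.2 ⟨z, ?_⟩
    refine ⟨hz, ?_⟩
    intro i _
    have h1 := hu i (mem_univ i)
    simp only [Pi.zero_apply, Int.cast_zero, zero_add] at h1
    constructor
    · simp only [Pi.add_apply]
      linarith [h1.1]
    · simp only [Pi.add_apply]
      linarith [h1.2]
  calc (1 : ENNReal) = volume (C 0) := hC0.symm
    _ ≤ ∑' z : Fin k → ℤ, volume
        ((fun u : Fin k → ℝ => u + fun i => (z i : ℝ)) ⁻¹' (S ∩ C z)) :=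
        (measure_mono hcov).trans (measure_iUnion_le _)
    _ = ∑' z : Fin k → ℤ, (volume.restrict S) (C z) := by
        congr 1
        funext z
        rw [measure_preimage_add_right, Measure.restrict_apply (hCm z), inter_comm]
    _ = (volume.restrict S) (⋃ z, C z) := (measure_iUnion hCd hCm).symm
    _ ≤ (volume.restrict S) univ := measure_mono (subset_univ _)
    _ = volume S := by rw [Measure.restrict_apply_univ]

/-- A set with the lattice property which is covered by `N` sets, each of which is mapped by the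
linear map of matrix `E` into a set of sup-diameter at most `1/2`, satisfies `|det E| ≤ N`. -/
theorem det_le_card {k : ℕ} {ι : Type} (t : Finset ι) (E : Matrix (Fin k) (Fin k) ℝ)
    (S : Set (Fin k → ℝ)) (P : ι → Set (Fin k → ℝ))
    (hS : ∀ u : Fin k → ℝ, ∃ z : Fin k → ℤ, (fun i => u i + (z i : ℝ)) ∈ S)
    (hcov : S ⊆ ⋃ a ∈ t, P a)
    (hP : ∀ a ∈ t, ∀ z ∈ P a, ∀ z' ∈ P a, ∀ i, |(E.mulVec (z - z')) i| ≤ 1 / 2) :
    |E.det| ≤ t.card := by
  by_cases hdet : E.det = 0
  · simp [hdet]
  have hpiece : ∀ a ∈ t, volume (P a) ≤ ENNReal.ofReal |E.det⁻¹| := by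
    intro a ha
    rcases (P a).eq_empty_or_nonempty with h0 | ⟨z₀, hz₀⟩
    · simp [h0]
    let Q : Set (Fin k → ℝ) := Set.pi univ fun _ => Icc (-(1 / 2) : ℝ) (1 / 2)
    have hQ : volume Q = 1 := by
      have : Q = Icc (fun _ => -(1 / 2) : Fin k → ℝ) (fun _ => 1 / 2) :=
        Set.pi_univ_Icc _ _
      rw [this, Real.volume_Icc_pi]
      norm_num
    have hsub : P a ⊆ (fun z => z + z₀) '' ((Matrix.toLin' E⁻¹) '' Q) := by
      intro z hz
      refine ⟨z - z₀, ⟨E.mulVec (z - z₀), ?_, ?_⟩, by simp⟩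
      · intro i _
        exact abs_le.1 (hP a ha z hz z₀ hz₀ i)
      · rw [Matrix.toLin'_apply, Matrix.mulVec_mulVec,
          Matrix.nonsing_inv_mul _ (Ne.isUnit hdet), Matrix.one_mulVec]
    calc volume (P a) ≤ volume ((fun z => z + z₀) '' ((Matrix.toLin' E⁻¹) '' Q)) :=
          measure_mono hsub
      _ = volume ((Matrix.toLin' E⁻¹) '' Q) := by
          rw [image_add_right, measure_preimage_add_right]
      _ = ENNReal.ofReal |(Matrix.toLin' E⁻¹).det| * volume Q :=
          Measure.addHaar_image_linearMap _ _ _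
      _ = ENNReal.ofReal |E.det⁻¹| := by
          rw [hQ, mul_one, LinearMap.det_toLin', Matrix.det_nonsing_inv, Ring.inverse_eq_inv']
  have h1 : (1 : ENNReal) ≤ t.card * ENNReal.ofReal |E.det⁻¹| := by
    calc (1 : ENNReal) ≤ volume S := one_le_volume S hS
      _ ≤ volume (⋃ a ∈ t, P a) := measure_mono hcov
      _ ≤ ∑ a ∈ t, volume (P a) := measure_biUnion_finset_le _ _
      _ ≤ ∑ _a ∈ t, ENNReal.ofReal |E.det⁻¹| := Finset.sum_le_sum hpiece
      _ = t.card * ENNReal.ofReal |E.det⁻¹| := by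
          rw [Finset.sum_const, nsmul_eq_mul]
  have h2 : (1 : ℝ) ≤ t.card * |E.det⁻¹| := by
    have h3 : (t.card : ENNReal) * ENNReal.ofReal |E.det⁻¹|
        = ENNReal.ofReal (t.card * |E.det⁻¹|) := by
      rw [ENNReal.ofReal_mul (by positivity), ENNReal.ofReal_natCast]
    rw [h3, ← ENNReal.ofReal_one] at h1
    exact (ENNReal.ofReal_le_ofReal_iff (by positivity)).1 h1
  have h4 : 0 < |E.det| := abs_pos.2 hdet
  rw [abs_inv] at h2
  have := mul_le_mul_of_nonneg_right h2 h4.le
  rw [one_mul, mul_assoc, inv_mul_cancel₀ h4.ne', mul_one] at this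
  exact this

end Pool.Agent.Toral
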