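import Pool.Agent.Toral.Lift
import Pool.Agent.Toral.Vol

/-!
# Orbits which stay close have lifts which stay close
-/

namespace Pool.Agent.Toral

open Set

/-- A bound for the action of an integer matrix in the sup norm. -/
noncomputable def bd {m : ℕ} (A : Matrix (Fin m) (Fin m) ℤ) : ℝ :=
  1 + ∑ i, ∑ j, |(A i j : ℝ)|

theorem one_le_bd {m : ℕ} (A : Matrix (Fin m) (Fin m) ℤ) : 1 ≤ bd A := by
  have : 0 ≤ ∑ i, ∑ j, |(A i j : ℝ)| :=
    Finset.sum_nonneg fun i _ => Finset.sum_nonneg fun j _ => abs_nonneg _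
  unfold bd
  linarith

theorem mulVec_bound {m : ℕ} (A : Matrix (Fin m) (Fin m) ℤ) (w : Fin m → ℝ) {c : ℝ}
    (hc0 : 0 < c) (hc : ∀ i, |w i| < c) (i : Fin m) :
    |((A.map (Int.cast : ℤ → ℝ)).mulVec w) i| < bd A * c := by
  have h1 : |((A.map (Int.cast : ℤ → ℝ)).mulVec w) i| ≤ ∑ j, |(A i j : ℝ)| * c := by
    rw [Matrix.mulVec, dotProduct]
    refine (Finset.abs_sum_le_sum_abs _ _).trans (Finset.sum_le_sum fun j _ => ?_)
    rw [abs_mul]
    exact mul_le_mul_of_nonneg_left (hc j).le (abs_nonneg _)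
  have h2 : ∑ j, |(A i j : ℝ)| ≤ ∑ i, ∑ j, |(A i j : ℝ)| :=
    Finset.single_le_sum (f := fun i => ∑ j, |(A i j : ℝ)|)
      (fun i _ => Finset.sum_nonneg fun j _ => abs_nonneg _) (Finset.mem_univ i)
  rw [← Finset.sum_mul] at h1
  have h3 : (∑ j, |(A i j : ℝ)|) * c ≤ (∑ i, ∑ j, |(A i j : ℝ)|) * c :=
    mul_le_mul_of_nonneg_right h2 hc0.le
  unfold bd
  linarith [h1, h3, add_mul 1 (∑ i, ∑ j, |(A i j : ℝ)|) c]

variable {X : Type}

/-- Two points are near: `phi` differs by less than `1/4` and `J` by less than `1/(4 bd A)`. -/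
def Near {m : ℕ} (A : Matrix (Fin m) (Fin m) ℤ) (J : X → Torus m) (φ : X → Fin m → ℝ)
    (x x' : X) : Prop :=
  (∀ i, |φ x i - φ x' i| < 1 / 4) ∧ ∀ i, ‖J x i - J x' i‖ < 1 / (4 * bd A)

theorem track {m : ℕ} (A : Matrix (Fin m) (Fin m) ℤ) (J : X → Torus m) (φ : X → Fin m → ℝ)
    (x x' : ℕ → X) (w : ℕ → Fin m → ℝ) (hw0 : ∀ i, |w 0 i| < 1 / (4 * bd A))
    (hwl : ∀ n i, ((w n i : ℝ) : AddCircle (1 : ℝ)) = J (x n) i - J (x' n) i)
    (hws : ∀ n i, w (n + 1) i = ((A.map (Int.cast : ℤ → ℝ)).mulVec (w n)) i +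
      (φ (x n) i - φ (x' n) i))
    (n : ℕ) (hn : ∀ j < n, Near A J φ (x j) (x' j)) : ∀ i, |w n i| < 1 / 2 := by
  have hb := one_le_bd A
  have hη : 0 < 1 / (4 * bd A) := by positivity
  have hη4 : 1 / (4 * bd A) ≤ 1 / 4 := by
    apply one_div_le_one_div_of_le (by norm_num)
    linarith
  induction n with
  | zero =>
    intro i
    have := hw0 i
    linarith
  | succ n ih =>
    have h1 : ∀ i, |w n i| < 1 / 2 := ih fun j hj => hn j (by omega)
    have hN := hn n (Nat.lt_succ_self n)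
    have h2 : ∀ i, |w n i| < 1 / (4 * bd A) := by
      intro i
      have h3 := hN.2 i
      rw [← hwl n i, (AddCircle.norm_coe_eq_abs_iff (1 : ℝ) one_ne_zero).2] at h3
      · exact h3
      · rw [abs_one]
        exact (h1 i).le
    intro i
    rw [hws n i]
    have h4 := mulVec_bound A (w n) hη h2 i
    have h5 : bd A * (1 / (4 * bd A)) = 1 / 4 := by
      field_simp
    rw [h5] at h4
    have h6 := hN.1 i
    have := abs_add_le (((A.map (Int.cast : ℤ → ℝ)).mulVec (w n)) i)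
      (φ (x n) i - φ (x' n) i)
    linarith

/-- The lift of an orbit. -/
noncomputable def lift {m : ℕ} (A : Matrix (Fin m) (Fin m) ℤ) (f : X → X)
    (φ : X → Fin m → ℝ) (q : X) (v : Fin m → ℝ) : ℕ → Fin m → ℝ
  | 0 => v
  | n + 1 => (A.map (Int.cast : ℤ → ℝ)).mulVec (lift A f φ q v n) + φ (f^[n] q)

theorem lift_coe {m : ℕ} (A : Matrix (Fin m) (Fin m) ℤ) (f : X → X) (J : X → Torus m)
    (φ : X → Fin m → ℝ)
    (hφ : ∀ x i, J (f x) i = torusMap A (J x) i + ((φ x i : ℝ) : AddCircle (1 : ℝ)))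
    (q : X) (v : Fin m → ℝ) (hv : ∀ i, ((v i : ℝ) : AddCircle (1 : ℝ)) = J q i) (n : ℕ) :
    ∀ i, ((lift A f φ q v n i : ℝ) : AddCircle (1 : ℝ)) = J (f^[n] q) i := by
  induction n with
  | zero => exact hv
  | succ n ih =>
    intro i
    rw [Function.iterate_succ_apply', hφ, lift]
    simp only [Pi.add_apply, AddCircle.coe_add]
    congr 1
    simp only [torusMap, ContinuousMap.coe_mk, Matrix.mulVec, dotProduct, Matrix.map_apply]
    have : ((∑ j, (A i j : ℝ) * lift A f φ q v n j : ℝ) : AddCircle (1 : ℝ)) =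
        ∑ j, (((A i j : ℝ) * lift A f φ q v n j : ℝ) : AddCircle (1 : ℝ)) :=
      map_sum (QuotientAddGroup.mk' (AddSubgroup.zmultiples (1 : ℝ))) _ _
    rw [this]
    refine Finset.sum_congr rfl fun j _ => ?_
    rw [← ih j, ← AddCircle.coe_zsmul, zsmul_eq_mul]

theorem lift_add {m : ℕ} (A : Matrix (Fin m) (Fin m) ℤ) (f : X → X)
    (φ : X → Fin m → ℝ) (q : X) (v a : Fin m → ℝ) (n : ℕ) :
    lift A f φ q (a + v) n =
      ((A ^ n).map (Int.cast : ℤ → ℝ)).mulVec a + lift A f φ q v n := by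
  induction n with
  | zero => simp [lift]
  | succ n ih =>
    rw [lift, ih, lift, Matrix.mulVec_add, Matrix.mulVec_mulVec, add_assoc]
    congr 2
    rw [pow_succ']
    exact (Matrix.map_mul (f := Int.castRingHom ℝ)).symm

theorem continuous_lift {m : ℕ} {Y : Type} [TopologicalSpace X] [TopologicalSpace Y]
    (A : Matrix (Fin m) (Fin m) ℤ) (f : X → X) (hf : Continuous f)
    (φ : C(X, Fin m → ℝ)) (τ : C(Y, X)) (ψ : C(Y, Fin m → ℝ)) (n : ℕ) :
    Continuous fun y => lift A f φ (τ y) (ψ y) n := by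
  induction n with
  | zero => exact ψ.continuous
  | succ n ih =>
    simp only [lift]
    refine Continuous.add ?_ ?_
    · exact Continuous.matrix_mulVec continuous_const ih
    · exact φ.continuous.comp ((hf.iterate n).comp τ.continuous)

end Pool.Agent.Toral
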